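import Pool.Agent.H23HF.Pot

/-!
# Circle averages of the logarithm of a holomorphic function and its zeros
-/

set_option autoImplicit false

namespace Pool.Agent.H23HF

open MeasureTheory Set Metric Filter Topology
open scoped ENNReal NNReal
open Pool.Agent.R276.CP Pool.Agent.R276.CP.Pot

theorem avg_ind {κ : ℂ} {R : ℝ} (hR : 0 < R) (h : ℂ → ℂ) (hh : AnalyticOnNhd ℂ h (closedBall κ R))
    (hne : ∀ z ∈ closedBall κ R, h z ≠ 0) (S : Multiset ℂ) :
    Real.circleAverage (fun w => Real.log ‖(S.map (fun ρ => w - ρ)).prod * h w‖) κ R =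
      (S.map (fun ρ => Real.log R + Real.posLog (R⁻¹ * ‖κ - ρ‖))).sum + Real.log ‖h κ‖ := by
  classical
  have hsph : sphere κ |R| ⊆ closedBall κ R := by
    rw [abs_of_pos hR]
    exact sphere_subset_closedBall
  induction S using Multiset.induction_on with
  | empty =>
    simp only [Multiset.map_zero, Multiset.prod_zero, one_mul, Multiset.sum_zero, zero_add]
    exact AnalyticOnNhd.circleAverage_log_norm_of_ne_zero (by rwa [abs_of_pos hR])
      (by rwa [abs_of_pos hR])
  | cons a S ih =>
    rw [Multiset.map_cons, Multiset.sum_cons, add_assoc, ← ih,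
      ← circleAverage_log_norm_sub_const_eq_log_radius_add_posLog hR.ne']
    have hmer : MeromorphicOn (fun w => (S.map (fun ρ => w - ρ)).prod * h w) (sphere κ |R|) := by
      intro z hz
      refine AnalyticAt.meromorphicAt ?_
      refine AnalyticAt.mul ?_ (hh z (hsph hz))
      clear ih
      induction S using Multiset.induction_on with
      | empty =>
        simp only [Multiset.map_zero, Multiset.prod_zero]
        exact analyticAt_const
      | cons b S ih' =>
        simp only [Multiset.map_cons, Multiset.prod_cons]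
        exact (by fun_prop : AnalyticAt ℂ (fun z => z - b) z).mul ih'
    have hadd := Real.circleAverage_fun_add (c := κ) (R := R)
      (circleIntegrable_log_norm_sub_const (a := a) (c := κ) R)
      (MeromorphicOn.circleIntegrable_log_norm hmer)
    rw [← hadd]
    refine Real.circleAverage_congr_codiscreteWithin ?_ hR.ne'
    have hfin : {w : ℂ | w ∉ (a ::ₘ S).toFinset} ∈ codiscreteWithin (sphere κ |R|) := by
      apply codiscreteWithin_iff_locallyFiniteComplementWithin.2
      intro z hz
      refine ⟨Set.univ, univ_mem, ?_⟩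
      refine ((a ::ₘ S).toFinset.finite_toSet).subset ?_
      rintro w ⟨-, -, hw⟩
      exact not_not.1 hw
    have hself : sphere κ |R| ∈ codiscreteWithin (sphere κ |R|) := self_mem_codiscreteWithin _
    filter_upwards [hfin, hself] with w hw hws
    have hw' : w ∉ (a ::ₘ S).toFinset := hw
    rw [Multiset.mem_toFinset, Multiset.mem_cons, not_or] at hw'
    have h1 : w - a ≠ 0 := sub_ne_zero.2 hw'.1
    have h2 : (S.map (fun ρ => w - ρ)).prod * h w ≠ 0 := by
      refine mul_ne_zero ?_ (hne w (hsph hws))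
      rw [Ne, Multiset.prod_eq_zero_iff, Multiset.mem_map]
      rintro ⟨ρ, h3, h4⟩
      rw [sub_eq_zero] at h4
      rw [h4] at hw'
      exact hw'.2 h3
    rw [Multiset.map_cons, Multiset.prod_cons, mul_assoc, norm_mul,
      Real.log_mul (norm_ne_zero_iff.2 h1) (norm_ne_zero_iff.2 h2)]

/-- the contribution of a zero at distance `t` to the difference of the averages over the circles of
radius `(1/2)^k` and `(1/2)^(k+1)` -/
noncomputable def be (k : ℕ) (t : ℝ) : ℝ :=
  (Real.log ((1 / 2) ^ k) + Real.posLog (((1 / 2 : ℝ) ^ k)⁻¹ * t)) -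
    (Real.log ((1 / 2) ^ (k + 1)) + Real.posLog (((1 / 2 : ℝ) ^ (k + 1))⁻¹ * t))

/-- `max (log R) (log t)` -/
theorem phi_eq {R t : ℝ} (hR : 0 < R) (ht : 0 < t) :
    Real.log R + Real.posLog (R⁻¹ * t) = max (Real.log R) (Real.log t) := by
  unfold Real.posLog
  rw [Real.log_mul (by positivity) ht.ne', Real.log_inv, ← max_add_add_left]
  simp

theorem be_zero (k : ℕ) : be k 0 = Real.log 2 := by
  unfold be
  simp only [mul_zero, Real.posLog_zero, add_zero]
  rw [Real.log_pow, Real.log_pow, one_div, Real.log_inv]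
  push_cast
  ring

theorem log_half (k : ℕ) : Real.log ((1 / 2 : ℝ) ^ k) = -(k * Real.log 2) := by
  rw [Real.log_pow, one_div, Real.log_inv]
  ring

theorem be_nonneg (k : ℕ) {t : ℝ} (ht : 0 ≤ t) : 0 ≤ be k t := by
  rcases ht.eq_or_lt with rfl | ht
  · rw [be_zero]
    exact Real.log_nonneg (by norm_num)
  · unfold be
    rw [phi_eq (by positivity) ht, phi_eq (by positivity) ht, sub_nonneg]
    refine max_le_max ?_ le_rfl
    rw [log_half, log_half]
    have := Real.log_nonneg (by norm_num : (1:ℝ) ≤ 2)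
    push_cast
    linarith

theorem be_le (k : ℕ) {t : ℝ} (ht : 0 ≤ t) : be k t ≤ Real.log 2 := by
  rcases ht.eq_or_lt with rfl | ht
  · rw [be_zero]
  · unfold be
    rw [phi_eq (by positivity) ht, phi_eq (by positivity) ht]
    have h2 := Real.log_nonneg (by norm_num : (1:ℝ) ≤ 2)
    rw [log_half, log_half]
    push_cast
    rcases le_total (-((k:ℝ) * Real.log 2)) (Real.log t) with h | h
    · rw [max_eq_right h]
      have := le_max_right (-(((k:ℝ) + 1) * Real.log 2)) (Real.log t)
      linarith
    · rw [max_eq_left h]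
      have := le_max_left (-(((k:ℝ) + 1) * Real.log 2)) (Real.log t)
      linarith

theorem be_far (k : ℕ) {t : ℝ} (ht : (1 / 2 : ℝ) ^ k ≤ t) : be k t = 0 := by
  have h0 : (0:ℝ) < (1 / 2) ^ k := by positivity
  have ht0 : 0 < t := h0.trans_le ht
  unfold be
  rw [phi_eq (by positivity) ht0, phi_eq (by positivity) ht0]
  have h1 : Real.log ((1 / 2 : ℝ) ^ k) ≤ Real.log t := Real.log_le_log h0 ht
  have h2 : Real.log ((1 / 2 : ℝ) ^ (k + 1)) ≤ Real.log t := by
    refine le_trans ?_ h1
    apply Real.log_le_log (by positivity)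
    exact pow_le_pow_of_le_one (by norm_num) (by norm_num) (Nat.le_succ k)
  rw [max_eq_right h1, max_eq_right h2, sub_self]

/-- the logarithm as a sum over the scales -/
theorem lm_le_sum (k₀ : ℕ) {t : ℝ} (ht : 0 ≤ t) :
    lm t ≤ ENNReal.ofReal (k₀ * Real.log 2) + ∑' k : ℕ, ENNReal.ofReal (be (k + k₀) t) := by
  have hl2 : 0 < Real.log 2 := Real.log_pos (by norm_num)
  rcases ht.eq_or_lt with rfl | ht
  · have h1 : ∑' k : ℕ, ENNReal.ofReal (be (k + k₀) 0) = ⊤ := by
      simp only [be_zero]
      exact ENNReal.tsum_const_eq_top_of_ne_zero (by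
        rw [Ne, ENNReal.ofReal_eq_zero, not_le]; exact hl2)
    rw [h1]
    simp
  · obtain ⟨K, hK⟩ : ∃ K : ℕ, (1 / 2 : ℝ) ^ K < t := exists_pow_lt_of_lt_one ht (by norm_num)
    have hsum : ∀ m : ℕ, ∑ k ∈ Finset.range m, be (k + k₀) t =
        (Real.log ((1 / 2) ^ k₀) + Real.posLog (((1 / 2 : ℝ) ^ k₀)⁻¹ * t)) -
          (Real.log ((1 / 2) ^ (m + k₀)) + Real.posLog (((1 / 2 : ℝ) ^ (m + k₀))⁻¹ * t)) := by
      intro m
      induction m with
      | zero => simp
      | succ m ih =>
        rw [Finset.sum_range_succ, ih]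
        unfold be
        rw [show m + 1 + k₀ = m + k₀ + 1 by ring]
        ring
    have h1 : ENNReal.ofReal (∑ k ∈ Finset.range K, be (k + k₀) t) ≤
        ∑' k : ℕ, ENNReal.ofReal (be (k + k₀) t) := by
      rw [ENNReal.ofReal_sum_of_nonneg fun k _ => be_nonneg _ ht.le]
      exact ENNReal.sum_le_tsum _
    refine le_trans ?_ (add_le_add le_rfl h1)
    rw [← ENNReal.ofReal_add (by positivity) (Finset.sum_nonneg fun k _ => be_nonneg _ ht.le)]
    unfold lm
    rw [if_neg ht.ne']
    apply ENNReal.ofReal_le_ofReal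
    rw [hsum, phi_eq (by positivity) ht, phi_eq (by positivity) ht]
    have h2 : Real.log ((1 / 2 : ℝ) ^ (K + k₀)) ≤ Real.log t := by
      apply Real.log_le_log (by positivity)
      refine le_trans ?_ hK.le
      exact pow_le_pow_of_le_one (by norm_num) (by norm_num) (Nat.le_add_right _ _)
    rw [max_eq_right h2]
    have h3 := le_max_left (Real.log ((1 / 2 : ℝ) ^ k₀)) (Real.log t)
    have h4 := le_max_right (Real.log ((1 / 2 : ℝ) ^ k₀)) (Real.log t)
    rw [log_half] at h3 h4 ⊢
    unfold Real.posLog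
    rw [Real.log_inv]
    apply max_le
    · have : (0:ℝ) ≤ k₀ * Real.log 2 := by positivity
      linarith
    · linarith

end Pool.Agent.H23HF
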