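import Pool.Agent.H23HF.Loc

/-!
# The local step: Tonelli
-/

set_option autoImplicit false

namespace Pool.Agent.H23HF

open MeasureTheory Set Metric Filter Topology Matrix
open scoped ENNReal NNReal
open Pool.Agent.R276.CP Pool.Agent.R276.CP.Pot Pool.Agent.Y271.CO

variable {X : Type} [NormedAddCommGroup X] [NormedSpace ℂ X]

theorem Mx_sq {n : ℕ} (F : X →L[ℂ] (Fin n → ℂ)) (J : (Fin n → ℂ) →L[ℂ] X) (R : X →L[ℂ] X)
    (h : J.comp F = 0) : Mx F J R * Mx F J R = 0 := by
  have h1 : op (Mx F J R * Mx F J R) = 0 := by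
    rw [op_mul, op_Mx]
    ext v : 1
    have h2 : ∀ x, J (F x) = 0 := fun x => congrArg (fun Z : X →L[ℂ] X => Z x) h
    show F (R (J (F (R (J v))))) = 0
    rw [h2, map_zero, map_zero]
  ext i j
  have h2 : op (Mx F J R * Mx F J R) (Pi.single j 1) = 0 := by rw [h1]; rfl
  rw [op_apply, Matrix.mulVec_single_one] at h2
  exact congrFun h2 i

variable [CompleteSpace X]

theorem loc {n : ℕ} {J : ℂ → (Fin n → ℂ) →L[ℂ] X} {F : ℂ → X →L[ℂ] (Fin n → ℂ)}
    {T : ℂ → X →L[ℂ] X} {c : ℂ} {r : ℝ} (hr : 0 < r) {O : Set ℂ} (hO : IsOpen O)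
    (hOb : closedBall c (6 * r) ⊆ O) (hJ : DifferentiableOn ℂ J O) (hF : DifferentiableOn ℂ F O)
    (hT : ∀ κ ∈ O, T κ = T c + (1:ℂ) • (J κ).comp (F κ)) (h00 : (J c).comp (F c) = 0)
    {U : Set ℂ} (hU : IsOpen U) (hUf : volume U ≠ ⊤) (hg : Good (T c) U)
    (m : Measure ℂ) (hm : LogBd m) : ∀ᵐ κ ∂(m.restrict (ball c r)), Good (T κ) U := by
  classical
  obtain ⟨B, hB0, hB⟩ : ∃ B : ℝ, 0 ≤ B ∧ ∀ κ ∈ closedBall c (6 * r), ‖F κ‖ * ‖J κ‖ ≤ B := by
    have h1 : ContinuousOn (fun κ => ‖F κ‖ * ‖J κ‖) (closedBall c (6 * r)) :=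
      ((hF.continuousOn.mono hOb).norm).mul ((hJ.continuousOn.mono hOb).norm)
    obtain ⟨B, hB⟩ := (isCompact_closedBall c (6 * r)).exists_bound_of_continuousOn h1
    refine ⟨max B 0, le_max_right _ _, fun κ hκ => ?_⟩
    have h2 := hB κ hκ
    exact ((le_abs_self _).trans h2).trans (le_max_left _ _)
  obtain ⟨C, hC0, hC⟩ := det_bd' (X := X) (n := n) hB0
  obtain ⟨V, hV⟩ : ∃ V, V = U ∩ resolventSet ℂ (T c) := ⟨_, rfl⟩
  have hVo : IsOpen V := by
    rw [hV]
    exact hU.inter (spectrum.isOpen_resolventSet (T c))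
  have hVU : V ⊆ U := by rw [hV]; exact inter_subset_left
  have hVR : V ⊆ resolventSet ℂ (T c) := by rw [hV]; exact inter_subset_right
  obtain ⟨D, hD⟩ : ∃ D : ℂ → ℂ → ℂ,
    D = fun κ z => (1 - (1:ℂ) • Mx (F κ) (J κ) (resolvent (T c) z)).det := ⟨_, rfl⟩
  have hDc : ∀ z, D c z = 1 := by
    intro z
    rw [hD]
    show (1 - (1:ℂ) • Mx (F c) (J c) (resolvent (T c) z)).det = 1
    rw [one_smul]
    exact det_nil _ (Mx_sq _ _ _ h00)
  have hDd : ∀ z, DifferentiableOn ℂ (fun κ => D κ z) O := by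
    intro z
    rw [hD]
    refine det_diff _ fun i j => ?_
    simp only [Matrix.sub_apply, Matrix.smul_apply, smul_eq_mul, one_mul]
    refine (differentiableOn_const _).sub ?_
    have h1 : DifferentiableOn ℂ (fun κ => J κ (Pi.single j 1)) O :=
      hJ.clm_apply (differentiableOn_const _)
    have h2 : DifferentiableOn ℂ (fun κ => resolvent (T c) z (J κ (Pi.single j 1))) O :=
      (resolvent (T c) z).differentiable.comp_differentiableOn h1
    have h3 : DifferentiableOn ℂ (fun κ => F κ (resolvent (T c) z (J κ (Pi.single j 1)))) O :=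
      hF.clm_apply h2
    exact differentiableOn_pi.1 h3 i
  have hDb : ∀ κ z, ‖κ - c‖ ≤ 6 * r →
      ‖D κ z‖ ≤ Real.exp (C + n * Real.posLog ‖resolvent (T c) z‖) := by
    intro κ z hκ
    rw [hD]
    exact hC _ _ _ (hB κ (by rw [mem_closedBall, dist_eq_norm]; exact hκ))
  obtain ⟨Cp, hCp⟩ := pot m hm c hr
  have hpot : ∀ z, ∫⁻ κ in ball c r, lm ‖D κ z‖ ∂m ≤
      Cp * ENNReal.ofReal (C + n * Real.posLog ‖resolvent (T c) z‖ + 1) := fun z =>
    hCp hO hOb (fun κ => D κ z) _ (hDd z) (hDc z) (fun κ hκ => hDb κ z hκ)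
  -- joint continuity
  have hres : ContinuousOn (fun z => resolvent (T c) z) (resolventSet ℂ (T c)) := fun z hz =>
    (spectrum.hasDerivAt_resolvent_const_left hz).continuousAt.continuousWithinAt
  have hbO : ball c r ⊆ O := by
    refine (ball_subset_closedBall.trans (closedBall_subset_closedBall ?_)).trans hOb
    linarith
  have hDcont : ContinuousOn (fun p : ℂ × ℂ => D p.1 p.2) (ball c r ×ˢ V) := by
    rw [hD]
    refine det_cont _ fun i j => ?_
    simp only [Matrix.sub_apply, Matrix.smul_apply, smul_eq_mul, one_mul]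
    refine continuousOn_const.sub ?_
    have hJ' : ContinuousOn (fun p : ℂ × ℂ => J p.1) (ball c r ×ˢ V) :=
      hJ.continuousOn.comp continuousOn_fst fun p hp => hbO hp.1
    have hF' : ContinuousOn (fun p : ℂ × ℂ => F p.1) (ball c r ×ˢ V) :=
      hF.continuousOn.comp continuousOn_fst fun p hp => hbO hp.1
    have hR' : ContinuousOn (fun p : ℂ × ℂ => resolvent (T c) p.2) (ball c r ×ˢ V) :=
      hres.comp continuousOn_snd fun p hp => hVR hp.2
    have h3 : ContinuousOn (fun p : ℂ × ℂ => F p.1 (resolvent (T c) p.2 (J p.1 (Pi.single j 1))))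
        (ball c r ×ˢ V) :=
      hF'.clm_apply (hR'.clm_apply (hJ'.clm_apply continuousOn_const))
    exact continuousOn_pi.1 h3 i
  have hmS : MeasurableSet (ball c r ×ˢ V) := measurableSet_ball.prod hVo.measurableSet
  obtain ⟨g, hgdef⟩ : ∃ g : ℂ × ℂ → ℝ≥0∞,
    g = fun p => lm ‖(ball c r ×ˢ V).piecewise (fun p : ℂ × ℂ => D p.1 p.2) (fun _ => 1) p‖ :=
    ⟨_, rfl⟩
  have hgm : Measurable g := by
    rw [hgdef]
    refine measurable_lm.comp (Measurable.norm ?_)
    exact hDcont.measurable_piecewise continuousOn_const hmS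
  have hgv : ∀ κ ∈ ball c r, ∀ z ∈ V, g (κ, z) = lm ‖D κ z‖ := by
    intro κ hκ z hz
    rw [hgdef]
    show lm ‖(ball c r ×ˢ V).piecewise (fun p : ℂ × ℂ => D p.1 p.2) (fun _ => 1) (κ, z)‖ = _
    rw [Set.piecewise_eq_of_mem _ _ _ (show (κ, z) ∈ ball c r ×ˢ V from ⟨hκ, hz⟩)]
  obtain ⟨C0, hmass, -⟩ := hm (‖c‖ + r)
  have hincl : ball c r ⊆ ball 0 (‖c‖ + r) := by
    intro x hx
    rw [mem_ball, dist_eq_norm] at hx
    rw [mem_ball_zero_iff]
    have h1 := norm_add_le (x - c) c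
    rw [sub_add_cancel] at h1
    linarith
  have hfm : IsFiniteMeasure (m.restrict (ball c r)) := by
    refine ⟨?_⟩
    rw [Measure.restrict_apply_univ]
    exact ((measure_mono hincl).trans hmass).trans_lt ENNReal.coe_lt_top
  have hswap : ∫⁻ κ in ball c r, ∫⁻ z in V, g (κ, z) ∂volume ∂m ≠ ⊤ := by
    rw [lintegral_lintegral_swap (f := fun κ z => g (κ, z)) hgm.aemeasurable]
    refine ne_top_of_le_ne_top ?_ (setLIntegral_mono' hVo.measurableSet fun z hz =>
      (show ∫⁻ κ in ball c r, g (κ, z) ∂m ≤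
        Cp * ENNReal.ofReal (C + n * Real.posLog ‖resolvent (T c) z‖ + 1) from ?_))
    · rw [lintegral_const_mul' _ _ ENNReal.coe_ne_top]
      refine ENNReal.mul_ne_top ENNReal.coe_ne_top ?_
      refine ne_top_of_le_ne_top ?_ (lintegral_mono' (Measure.restrict_mono_set _ hVU)
        (g := fun z => ENNReal.ofReal (C + 1) +
          n * ENNReal.ofReal (Real.posLog ‖resolvent (T c) z‖)) fun z => ?_)
      · rw [lintegral_add_left measurable_const, lintegral_const, Measure.restrict_apply_univ,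
          lintegral_const_mul' _ _ (ENNReal.natCast_ne_top n)]
        refine ENNReal.add_ne_top.2 ⟨ENNReal.mul_ne_top ENNReal.ofReal_ne_top hUf,
          ENNReal.mul_ne_top (ENNReal.natCast_ne_top n) ?_⟩
        refine ne_top_of_le_ne_top hg.2.2.ne (lintegral_mono fun z => ?_)
        rw [Real.enorm_of_nonneg Real.posLog_nonneg]
      · have e : C + n * Real.posLog ‖resolvent (T c) z‖ + 1 =
            (C + 1) + n * Real.posLog ‖resolvent (T c) z‖ := by ring
        show ENNReal.ofReal (C + n * Real.posLog ‖resolvent (T c) z‖ + 1) ≤ _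
        rw [e]
        refine ENNReal.ofReal_add_le.trans ?_
        rw [ENNReal.ofReal_mul (Nat.cast_nonneg n), ENNReal.ofReal_natCast]
    · refine le_trans (le_of_eq ?_) (hpot z)
      refine setLIntegral_congr_fun measurableSet_ball fun κ hκ => ?_
      exact hgv κ hκ z hz
  have hgi : Measurable fun κ : ℂ => ∫⁻ z in V, g (κ, z) := hgm.lintegral_prod_right'
  filter_upwards [ae_lt_top hgi hswap, ae_restrict_mem measurableSet_ball] with κ hκ1 hκ2
  refine transfer (T c) (T κ) (F κ) (J κ) (hT κ (hbO hκ2)) hU hUf hg ?_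
  rw [← hV]
  refine ne_of_lt (lt_of_le_of_lt (le_of_eq ?_) hκ1)
  refine setLIntegral_congr_fun hVo.measurableSet fun z hz => ?_
  show _ = g (κ, z)
  rw [hgv κ hκ2 z hz, hD]

end Pool.Agent.H23HF
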