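import Pool.Agent.H23HF.Avg
import Pool.Agent.H23HF.Step
import Pool.Agent.Y271.CO.Main

/-!
# The local step: the exceptional set has Hausdorff dimension zero
-/

set_option autoImplicit false

namespace Pool.Agent.H23HF

open MeasureTheory Set Metric Filter Topology
open scoped ENNReal NNReal
open Pool.Agent.R276.CP Pool.Agent.R276.CP.Pot Pool.Agent.Y271.CO

/-- at most one point of a separated set is near `ρ` -/
theorem sep_sum {s : Finset ℂ} {k k₀ : ℕ} (hs : Pool.Agent.Y271.CO.Sep s k) (ρ : ℂ) :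
    ∑ κ ∈ s, be (k + k₀) ‖κ - ρ‖ ≤ Real.log 2 := by
  classical
  have hpow : (1 / 2 : ℝ) ^ (k + k₀) ≤ (1 / 2) ^ k :=
    pow_le_pow_of_le_one (by norm_num) (by norm_num) (Nat.le_add_right _ _)
  by_cases hex : ∃ a ∈ s, ‖a - ρ‖ < (1 / 2 : ℝ) ^ (k + k₀)
  · obtain ⟨a, ha, ha'⟩ := hex
    rw [Finset.sum_eq_single_of_mem a ha]
    · exact be_le _ (norm_nonneg _)
    · intro b hb hba
      apply be_far
      by_contra hcon
      rw [not_le] at hcon
      have h1 := hs b hb a ha hba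
      have h2 : b - a = (b - ρ) - (a - ρ) := by ring
      rw [h2] at h1
      have h3 := norm_sub_le (b - ρ) (a - ρ)
      linarith
  · push Not at hex
    rw [Finset.sum_eq_zero fun κ hκ => be_far _ (hex κ hκ)]
    exact Real.log_nonneg (by norm_num)

/-- An abstract form of the covering argument: `D` is continuous on `O × V`, holomorphic in the first
variable, equal to one at `c`, and bounded by `exp (M z)` with `M` integrable. -/
theorem dim_abs {c : ℂ} {r : ℝ} (hr : 0 < r) {O V : Set ℂ} (hO : IsOpen O) (hV : IsOpen V)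
    (hOb : closedBall c (6 * r) ⊆ O) (D : ℂ → ℂ → ℂ) (M : ℂ → ℝ)
    (hDd : ∀ z ∈ V, DifferentiableOn ℂ (fun κ => D κ z) O)
    (hDc : ∀ z ∈ V, D c z = 1)
    (hDb : ∀ z ∈ V, ∀ κ, ‖κ - c‖ ≤ 6 * r → ‖D κ z‖ ≤ Real.exp (M z))
    (hcont : ContinuousOn (fun p : ℂ × ℂ => D p.1 p.2) (O ×ˢ V))
    (hM : ∫⁻ z in V, ENNReal.ofReal (M z + 1) ≠ ⊤) :
    dimH {κ | κ ∈ ball c r ∧ ∫⁻ z in V, lm ‖D κ z‖ = ⊤} = 0 := by
  classical
  obtain ⟨k₀, hk₀⟩ : ∃ k₀ : ℕ, (1 / 2 : ℝ) ^ k₀ < r :=
    exists_pow_lt_of_lt_one hr (by norm_num)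
  have hpk : ∀ k, (1 / 2 : ℝ) ^ (k + k₀) ≤ r := by
    intro k
    refine le_trans ?_ hk₀.le
    exact pow_le_pow_of_le_one (by norm_num) (by norm_num) (Nat.le_add_left _ _)
  have hcb : ∀ κ ∈ ball c r, ∀ k, closedBall κ ((1 / 2 : ℝ) ^ (k + k₀)) ⊆ closedBall c (2 * r) := by
    intro κ hκ k x hx
    rw [mem_closedBall] at hx ⊢
    rw [mem_ball] at hκ
    have := dist_triangle x κ c
    have := hpk k
    linarith
  have h2r : closedBall c (2 * r) ⊆ O :=
    (closedBall_subset_closedBall (by linarith)).trans hOb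
  -- the factorizations
  have hfac := fun z (hz : z ∈ V) => keyc c hr hO hOb (fun κ => D κ z) (M z) (hDd z hz) (hDc z hz)
    (hDb z hz)
  choose! S h hcard hha hhn hhf hlm using hfac
  -- the measurable extension
  obtain ⟨D', hD'⟩ : ∃ D' : ℂ × ℂ → ℂ,
    D' = (O ×ˢ V).piecewise (fun p : ℂ × ℂ => D p.1 p.2) (fun _ => 1) := ⟨_, rfl⟩
  have hD'm : Measurable D' := by
    rw [hD']
    exact hcont.measurable_piecewise continuousOn_const (hO.measurableSet.prod hV.measurableSet)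
  have hD'v : ∀ κ ∈ O, ∀ z ∈ V, D' (κ, z) = D κ z := by
    intro κ hκ z hz
    rw [hD', Set.piecewise_eq_of_mem _ _ _ (show (κ, z) ∈ O ×ˢ V from ⟨hκ, hz⟩)]
  obtain ⟨G, hG⟩ : ∃ G : ℂ → ℝ → ℂ → ℝ,
    G = fun κ R z => Real.circleAverage (fun w => Real.log ‖D' (w, z)‖) κ R := ⟨_, rfl⟩
  have hGm : ∀ κ R, Measurable (G κ R) := by
    intro κ R
    rw [hG]
    show Measurable fun z => (2 * Real.pi)⁻¹ *
      ∫ θ in (0:ℝ)..(2 * Real.pi), Real.log ‖D' (circleMap κ R θ, z)‖
    refine Measurable.const_mul ?_ _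
    simp only [intervalIntegral.integral_of_le (by positivity : (0:ℝ) ≤ 2 * Real.pi)]
    refine (StronglyMeasurable.integral_prod_right' (ν := volume.restrict (Ioc 0 (2 * Real.pi)))
      (f := fun p : ℂ × ℝ => Real.log ‖D' (circleMap κ R p.2, p.1)‖) ?_).measurable
    refine Measurable.stronglyMeasurable ?_
    refine Real.measurable_log.comp (Measurable.norm (hD'm.comp ?_))
    exact ((continuous_circleMap κ R).measurable.comp measurable_snd).prodMk measurable_fst
  obtain ⟨u, hu⟩ : ∃ u : ℂ → ℕ → ℂ → ℝ,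
    u = fun κ k z => G κ ((1 / 2) ^ (k + k₀)) z - G κ ((1 / 2) ^ (k + k₀ + 1)) z := ⟨_, rfl⟩
  have hum : ∀ κ k, Measurable (u κ k) := by
    intro κ k
    rw [hu]
    exact (hGm _ _).sub (hGm _ _)
  have hGval : ∀ κ ∈ ball c r, ∀ k, ∀ R : ℝ, 0 < R → R ≤ (1 / 2 : ℝ) ^ (k + k₀) → ∀ z ∈ V, G κ R z =
      ((S z).map (fun ρ => Real.log R + Real.posLog (R⁻¹ * ‖κ - ρ‖))).sum +
        Real.log ‖h z κ‖ := by
    intro κ hκ k R hR hRk z hz
    have hsub : closedBall κ R ⊆ closedBall c (2 * r) :=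
      (closedBall_subset_closedBall hRk).trans (hcb κ hκ k)
    rw [hG, ← avg_ind hR (h z) ((hha z hz).mono hsub) (fun w hw => hhn z hz w (hsub hw)) (S z)]
    refine Real.circleAverage_congr_sphere fun w hw => ?_
    rw [abs_of_pos hR] at hw
    have hw' : w ∈ closedBall c (2 * r) := hsub (sphere_subset_closedBall hw)
    show Real.log ‖D' (w, z)‖ = Real.log ‖((S z).map (fun ρ => w - ρ)).prod * h z w‖
    rw [hD'v w (h2r hw') z hz, ← hhf z hz w hw']
  have huval : ∀ κ ∈ ball c r, ∀ k, ∀ z ∈ V,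
      u κ k z = ((S z).map (fun ρ => be (k + k₀) ‖κ - ρ‖)).sum := by
    intro κ hκ k z hz
    rw [hu]
    show G κ ((1 / 2) ^ (k + k₀)) z - G κ ((1 / 2) ^ (k + k₀ + 1)) z = _
    rw [hGval κ hκ k _ (by positivity) le_rfl z hz, hGval κ hκ k _ (by positivity)
      (pow_le_pow_of_le_one (by norm_num) (by norm_num) (Nat.le_succ _)) z hz,
      add_sub_add_right_eq_sub, ← Multiset.sum_map_sub]
    rfl
  obtain ⟨W, hW⟩ : ∃ W : ℂ → ℕ → ENNReal,
    W = fun κ k => if κ ∈ ball c r then ∫⁻ z in V, ENNReal.ofReal (u κ k z) else 0 := ⟨_, rfl⟩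
  obtain ⟨N, hN⟩ : ∃ N : ENNReal, N = ∫⁻ z in V, ENNReal.ofReal (M z + 1) := ⟨_, rfl⟩
  have hpack : ∀ k s, Pool.Agent.Y271.CO.Sep s k → ∑ κ ∈ s, W κ k ≤ N := by
    intro k s hs
    rw [hW]
    rw [← Finset.sum_filter, ← lintegral_finsetSum _ fun κ _ => (hum κ k).ennreal_ofReal, hN]
    refine setLIntegral_mono' hV.measurableSet fun z hz => ?_
    have h1 : ∀ κ ∈ s.filter (fun κ => κ ∈ ball c r), ENNReal.ofReal (u κ k z) =
        ENNReal.ofReal ((S z).map (fun ρ => be (k + k₀) ‖κ - ρ‖)).sum := by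
      intro κ hκ
      rw [huval κ (Finset.mem_filter.1 hκ).2 k z hz]
    rw [Finset.sum_congr rfl h1, ← ENNReal.ofReal_sum_of_nonneg]
    · apply ENNReal.ofReal_le_ofReal
      have h2 : ∀ T : Multiset ℂ, ∑ κ ∈ s.filter (fun κ => κ ∈ ball c r),
          (T.map (fun ρ => be (k + k₀) ‖κ - ρ‖)).sum ≤ (Multiset.card T : ℝ) * Real.log 2 := by
        intro T
        induction T using Multiset.induction_on with
        | empty => simp
        | cons a T ih =>
          simp only [Multiset.map_cons, Multiset.sum_cons, Multiset.card_cons]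
          rw [Finset.sum_add_distrib]
          have h3 := sep_sum (s := s.filter (fun κ => κ ∈ ball c r)) (k := k) (k₀ := k₀)
            (fun a ha b hb hab => hs a (Finset.mem_filter.1 ha).1 b (Finset.mem_filter.1 hb).1 hab) a
          push_cast
          linarith
      have h4 := hcard z hz
      have h5 := h2 (S z)
      linarith
    · intro κ _
      apply Multiset.sum_nonneg
      intro x hx
      obtain ⟨ρ, -, rfl⟩ := Multiset.mem_map.1 hx
      exact be_nonneg _ (norm_nonneg _)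
  have hdim := dim_zero (W := W) (N := N) (by rw [hN]; exact hM) hpack
  refine le_antisymm ((dimH_mono fun κ hκ => ?_).trans hdim.le) zero_le
  obtain ⟨hκb, hκi⟩ := hκ
  show ∃ᶠ k in atTop, ENNReal.ofReal (wgt k) ≤ W κ k
  by_contra hcon
  rw [not_frequently] at hcon
  have hWsum : ∑' k, W κ k ≠ ⊤ := by
    refine sum_ne_top (B := N) (by rw [hN]; exact hM) (fun k => ?_) ?_
    · have := hpack k {κ} (fun a ha b hb hab => by
        rw [Finset.mem_singleton] at ha hb
        exact absurd (ha.trans hb.symm) hab)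
      simpa using this
    · filter_upwards [hcon] with k hk
      exact (not_le.1 hk).le
  have hWv : ∀ k, W κ k = ∫⁻ z in V, ENNReal.ofReal (u κ k z) := by
    intro k
    rw [hW]
    exact if_pos hκb
  obtain ⟨A, hA⟩ : ∃ A : ENNReal, A = 2 * (1 + ENNReal.ofReal (Real.posLog (2 * r)) +
    ENNReal.ofReal (k₀ * Real.log 2)) := ⟨_, rfl⟩
  have hA0 : A ≠ ⊤ := by
    rw [hA]
    finiteness
  have hpt : ∀ z ∈ V, lm ‖D κ z‖ ≤ A * ENNReal.ofReal (M z + 1) +
      ∑' k, ENNReal.ofReal (u κ k z) := by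
    intro z hz
    have hk : (Multiset.card (S z) : ℝ≥0∞) ≤ 2 * ENNReal.ofReal (M z + 1) := by
      have h1 := hcard z hz
      have hl : (1:ℝ)/2 ≤ Real.log 2 := by linarith [Real.log_two_gt_d9]
      have h0 : (0:ℝ) ≤ (Multiset.card (S z) : ℝ) := Nat.cast_nonneg _
      rw [← ENNReal.ofReal_natCast, ← ENNReal.ofReal_ofNat, ← ENNReal.ofReal_mul (by norm_num)]
      apply ENNReal.ofReal_le_ofReal
      nlinarith
    refine (hlm z hz κ hκb).trans ?_
    have h1 : ∀ T : Multiset ℂ, (T.map (fun ρ => ENNReal.ofReal (Real.posLog (2 * r)) +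
        lm ‖κ - ρ‖)).sum ≤ (Multiset.card T : ℝ≥0∞) * (ENNReal.ofReal (Real.posLog (2 * r)) +
          ENNReal.ofReal (k₀ * Real.log 2)) +
          ∑' k, ENNReal.ofReal ((T.map (fun ρ => be (k + k₀) ‖κ - ρ‖)).sum) := by
      intro T
      induction T using Multiset.induction_on with
      | empty => simp
      | cons a T ih =>
        simp only [Multiset.map_cons, Multiset.sum_cons, Multiset.card_cons]
        have h2 : ∀ k, ENNReal.ofReal (be (k + k₀) ‖κ - a‖ +
            (T.map (fun ρ => be (k + k₀) ‖κ - ρ‖)).sum) = ENNReal.ofReal (be (k + k₀) ‖κ - a‖) +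
            ENNReal.ofReal ((T.map (fun ρ => be (k + k₀) ‖κ - ρ‖)).sum) := by
          intro k
          refine ENNReal.ofReal_add (be_nonneg _ (norm_nonneg _)) ?_
          apply Multiset.sum_nonneg
          intro x hx
          obtain ⟨ρ, -, rfl⟩ := Multiset.mem_map.1 hx
          exact be_nonneg _ (norm_nonneg _)
        rw [tsum_congr h2, ENNReal.tsum_add]
        have h3 := lm_le_sum k₀ (norm_nonneg (κ - a))
        push_cast
        calc (ENNReal.ofReal (Real.posLog (2 * r)) + lm ‖κ - a‖) +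
              (T.map (fun ρ => ENNReal.ofReal (Real.posLog (2 * r)) + lm ‖κ - ρ‖)).sum
            ≤ (ENNReal.ofReal (Real.posLog (2 * r)) + (ENNReal.ofReal (k₀ * Real.log 2) +
              ∑' k : ℕ, ENNReal.ofReal (be (k + k₀) ‖κ - a‖))) +
              ((Multiset.card T : ℝ≥0∞) * (ENNReal.ofReal (Real.posLog (2 * r)) +
              ENNReal.ofReal (k₀ * Real.log 2)) +
              ∑' k, ENNReal.ofReal ((T.map (fun ρ => be (k + k₀) ‖κ - ρ‖)).sum)) :=
              add_le_add (add_le_add le_rfl h3) ih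
          _ = _ := by ring
    have h4 : ∀ k, ENNReal.ofReal (u κ k z) =
        ENNReal.ofReal (((S z).map (fun ρ => be (k + k₀) ‖κ - ρ‖)).sum) := fun k => by
      rw [huval κ hκb k z hz]
    rw [tsum_congr h4]
    refine (add_le_add le_rfl (h1 (S z))).trans ?_
    rw [← add_assoc]
    refine add_le_add ?_ le_rfl
    rw [hA, ENNReal.ofReal_mul (by norm_num), ENNReal.ofReal_ofNat]
    refine (add_le_add le_rfl (mul_le_mul_left hk _)).trans (le_of_eq ?_)
    ring
  have hfin : ∫⁻ z in V, lm ‖D κ z‖ ≠ ⊤ := by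
    refine ne_top_of_le_ne_top ?_ (setLIntegral_mono' hV.measurableSet hpt)
    rw [lintegral_add_right _ (Measurable.tsum fun k => (hum κ k).ennreal_ofReal),
      lintegral_const_mul' _ _ hA0, lintegral_tsum fun k => (hum κ k).ennreal_ofReal.aemeasurable]
    refine ENNReal.add_ne_top.2 ⟨ENNReal.mul_ne_top hA0 hM, ?_⟩
    rwa [tsum_congr fun k => (hWv k).symm]
  exact hfin hκi

end Pool.Agent.H23HF
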