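import Mathlib

/-!
# Local factorization of holomorphic families of finite rank operators
-/

set_option autoImplicit false

namespace Pool.Agent.H23HF

open Set Metric Filter Topology

variable {X : Type} [NormedAddCommGroup X] [NormedSpace ℂ X]

/-- the rank of `L` is at most `n` -/
def RkLe (L : X →L[ℂ] X) (n : ℕ) : Prop :=
  ∃ W : Submodule ℂ X, FiniteDimensional ℂ W ∧ Module.finrank ℂ W ≤ n ∧ ∀ y, L y ∈ W

theorem RkLe.zero {L : X →L[ℂ] X} (h : RkLe L 0) : L = 0 := by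
  obtain ⟨W, hW, h1, h2⟩ := h
  have h3 : W = ⊥ := Submodule.finrank_eq_zero.1 (Nat.le_zero.1 h1)
  ext y
  have := h2 y
  rw [h3, Submodule.mem_bot] at this
  simpa using this

theorem RkLe.of_smul {L G : X →L[ℂ] X} {n : ℕ} {a : ℂ} (ha : a ≠ 0) (h : RkLe L n)
    (hL : L = a • G) : RkLe G n := by
  obtain ⟨W, hW, h1, h2⟩ := h
  refine ⟨W, hW, h1, fun y => ?_⟩
  have h3 : G y = a⁻¹ • L y := by
    rw [hL]
    simp [smul_smul, inv_mul_cancel₀ ha]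
  rw [h3]
  exact W.smul_mem _ (h2 y)

theorem fac (c : ℂ) : ∀ (n : ℕ) (K : ℂ → X →L[ℂ] X), AnalyticAt ℂ K c →
    (∀ᶠ κ in 𝓝[≠] c, RkLe (K κ) n) →
    ∃ (m : ℕ) (J : ℂ → (Fin m → ℂ) →L[ℂ] X) (F : ℂ → X →L[ℂ] (Fin m → ℂ)),
      AnalyticAt ℂ J c ∧ AnalyticAt ℂ F c ∧ ∀ᶠ κ in 𝓝 c, K κ = (J κ).comp (F κ) := by
  intro n
  induction n with
  | zero =>
    intro K hK hr
    refine ⟨0, fun _ => 0, fun _ => 0, analyticAt_const, analyticAt_const, ?_⟩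
    rcases hK.eventually_eq_zero_or_eventually_ne_zero with h | h
    · filter_upwards [h] with κ hκ
      rw [hκ]
      simp
    · exfalso
      obtain ⟨κ, h1, h2⟩ := (h.and hr).exists
      exact h1 h2.zero
  | succ n ih =>
    intro K hK hr
    rcases hK.eventually_eq_zero_or_eventually_ne_zero with h | h
    · refine ⟨0, fun _ => 0, fun _ => 0, analyticAt_const, analyticAt_const, ?_⟩
      filter_upwards [h] with κ hκ
      rw [hκ]
      simp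
    have hne : ¬ ∀ᶠ z in 𝓝 c, K z = 0 := by
      intro h'
      obtain ⟨κ, h1, h2⟩ := (h.and (h'.filter_mono nhdsWithin_le_nhds)).exists
      exact h1 h2
    obtain ⟨p, G, hG, hGc, hKG⟩ := hK.exists_eventuallyEq_pow_smul_nonzero_iff.2 hne
    obtain ⟨x, hx⟩ : ∃ x, G c x ≠ 0 := by
      by_contra hcon
      push Not at hcon
      exact hGc (by ext y; simpa using hcon y)
    obtain ⟨f, hf⟩ := SeparatingDual.exists_ne_zero (R := ℂ) hx
    obtain ⟨u, hu⟩ : ∃ u : ℂ → X, u = fun κ => G κ x := ⟨_, rfl⟩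
    obtain ⟨φ, hφ⟩ : ∃ φ : ℂ → X →L[ℂ] ℂ, φ = fun κ => f.comp (G κ) := ⟨_, rfl⟩
    obtain ⟨a, ha⟩ : ∃ a : ℂ → ℂ, a = fun κ => f (G κ x) := ⟨_, rfl⟩
    have hua : AnalyticAt ℂ u c := by
      rw [hu]
      exact ((ContinuousLinearMap.apply ℂ X x).analyticAt _).comp hG
    have hφa : AnalyticAt ℂ φ c := by
      rw [hφ]
      exact ((ContinuousLinearMap.compL ℂ X X ℂ f).analyticAt _).comp hG
    have haa : AnalyticAt ℂ a c := by
      rw [ha]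
      have h1 := (f.analyticAt _).comp hua
      rw [hu] at h1
      exact h1
    have hac : a c ≠ 0 := by rw [ha]; exact hf
    have hbi : AnalyticAt ℂ (fun κ => (a κ)⁻¹) c := haa.inv hac
    obtain ⟨G₂, hG₂⟩ : ∃ G₂ : ℂ → X →L[ℂ] X,
      G₂ = fun κ => G κ - (a κ)⁻¹ • ContinuousLinearMap.smulRightL ℂ X X (φ κ) (u κ) := ⟨_, rfl⟩
    have hG₂y : ∀ κ y, G₂ κ y = G κ y - (a κ)⁻¹ • (f (G κ y) • u κ) := by
      intro κ y
      rw [hG₂, hφ]
      simp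
    have hG₂a : AnalyticAt ℂ G₂ c := by
      rw [hG₂]
      refine hG.sub (hbi.smul ?_)
      exact ((ContinuousLinearMap.smulRightL ℂ X X).analyticAt_bilinear _).comp (hφa.prod hua)
    have hG₂r : ∀ᶠ κ in 𝓝[≠] c, RkLe (G₂ κ) n := by
      have h1 : ∀ᶠ κ in 𝓝[≠] c, a κ ≠ 0 :=
        (haa.continuousAt.eventually_ne hac).filter_mono nhdsWithin_le_nhds
      have h2 : ∀ᶠ κ in 𝓝[≠] c, κ ≠ c := eventually_mem_nhdsWithin
      filter_upwards [hr, hKG.filter_mono nhdsWithin_le_nhds, h1, h2] with κ g1 g2 g3 g4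
      have g5 : (κ - c) ^ p ≠ 0 := pow_ne_zero _ (sub_ne_zero.2 g4)
      obtain ⟨W, hW, w1, w2⟩ := RkLe.of_smul g5 g1 g2
      refine ⟨W ⊓ LinearMap.ker (f : X →ₗ[ℂ] ℂ), inferInstance, ?_, fun y => ⟨?_, ?_⟩⟩
      · have hlt : W ⊓ LinearMap.ker (f : X →ₗ[ℂ] ℂ) < W := by
          refine lt_of_le_of_ne inf_le_left fun heq => ?_
          have h3 : G κ x ∈ W ⊓ LinearMap.ker (f : X →ₗ[ℂ] ℂ) := by rw [heq]; exact w2 x
          have h4 : f (G κ x) = 0 := h3.2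
          rw [ha] at g3
          exact g3 h4
        have := Submodule.finrank_lt_finrank_of_lt hlt
        omega
      · rw [hG₂y]
        refine W.sub_mem (w2 y) (W.smul_mem _ (W.smul_mem _ ?_))
        rw [hu]
        exact w2 x
      · show f (G₂ κ y) = 0
        rw [hG₂y, map_sub, map_smul, map_smul]
        have h3 : f (u κ) = a κ := by rw [hu, ha]
        rw [h3, smul_eq_mul, smul_eq_mul]
        field_simp
        ring
    obtain ⟨m, J₂, F₂, hJ₂, hF₂, hJF⟩ := ih G₂ hG₂a hG₂r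
    obtain ⟨e⟩ : Nonempty (((Fin m → ℂ) × ℂ) ≃L[ℂ] (Fin (m + 1) → ℂ)) :=
      ⟨ContinuousLinearEquiv.ofFinrankEq (by simp)⟩
    obtain ⟨P₁, hP₁⟩ : ∃ P₁ : (Fin (m + 1) → ℂ) →L[ℂ] (Fin m → ℂ),
      P₁ = (ContinuousLinearMap.fst ℂ _ _).comp (e.symm : _ →L[ℂ] (Fin m → ℂ) × ℂ) := ⟨_, rfl⟩
    obtain ⟨P₂, hP₂⟩ : ∃ P₂ : (Fin (m + 1) → ℂ) →L[ℂ] ℂ,
      P₂ = (ContinuousLinearMap.snd ℂ _ _).comp (e.symm : _ →L[ℂ] (Fin m → ℂ) × ℂ) := ⟨_, rfl⟩
    obtain ⟨E₁, hE₁⟩ : ∃ E₁ : (Fin m → ℂ) →L[ℂ] (Fin (m + 1) → ℂ),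
      E₁ = (e : (Fin m → ℂ) × ℂ →L[ℂ] _).comp (ContinuousLinearMap.inl ℂ _ _) := ⟨_, rfl⟩
    obtain ⟨E₂, hE₂⟩ : ∃ E₂ : ℂ →L[ℂ] (Fin (m + 1) → ℂ),
      E₂ = (e : (Fin m → ℂ) × ℂ →L[ℂ] _).comp (ContinuousLinearMap.inr ℂ _ _) := ⟨_, rfl⟩
    have k1 : ∀ v, P₁ (E₁ v) = v := fun v => by rw [hP₁, hE₁]; simp
    have k2 : ∀ v, P₂ (E₁ v) = 0 := fun v => by rw [hP₂, hE₁]; simp
    have k3 : ∀ v, P₁ (E₂ v) = 0 := fun v => by rw [hP₁, hE₂]; simp
    have k4 : ∀ v, P₂ (E₂ v) = v := fun v => by rw [hP₂, hE₂]; simp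
    refine ⟨m + 1, fun κ => (ContinuousLinearMap.compL ℂ (Fin (m + 1) → ℂ) (Fin m → ℂ) X).flip P₁ (J₂ κ) +
        ContinuousLinearMap.smulRightL ℂ (Fin (m + 1) → ℂ) X P₂ (u κ),
      fun κ => (κ - c) ^ p • ((ContinuousLinearMap.compL ℂ X (Fin m → ℂ) (Fin (m + 1) → ℂ) E₁ (F₂ κ)) +
        (a κ)⁻¹ • ContinuousLinearMap.compL ℂ X ℂ (Fin (m + 1) → ℂ) E₂ (φ κ)), ?_, ?_, ?_⟩
    · refine AnalyticAt.add ?_ ?_
      · exact (((ContinuousLinearMap.compL ℂ (Fin (m + 1) → ℂ) (Fin m → ℂ) X).flip P₁).analyticAt _).comp hJ₂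
      · exact ((ContinuousLinearMap.smulRightL ℂ (Fin (m + 1) → ℂ) X P₂).analyticAt _).comp hua
    · refine AnalyticAt.smul ((analyticAt_id.sub analyticAt_const).pow p) (AnalyticAt.add ?_ (hbi.smul ?_))
      · exact ((ContinuousLinearMap.compL ℂ X (Fin m → ℂ) (Fin (m + 1) → ℂ) E₁).analyticAt _).comp hF₂
      · exact ((ContinuousLinearMap.compL ℂ X ℂ (Fin (m + 1) → ℂ) E₂).analyticAt _).comp hφa
    · filter_upwards [hKG, hJF] with κ g1 g2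
      ext y
      have g3 : J₂ κ (F₂ κ y) = G₂ κ y := by rw [g2]; rfl
      have g4 : φ κ y = f (G κ y) := by rw [hφ]; rfl
      rw [g1]
      simp only [ContinuousLinearMap.comp_apply, _root_.add_apply, _root_.smul_apply,
        ContinuousLinearMap.compL_apply, ContinuousLinearMap.flip_apply, map_add, map_smul, k1, k2, k3, k4,
        ContinuousLinearMap.smulRightL_apply_apply, ContinuousLinearMap.smulRight_apply]
      rw [g3, hG₂y, g4]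
      simp [smul_smul]

end Pool.Agent.H23HF
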