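import Pool.Agent.H23HF.StepD
import Pool.Agent.H23HF.Fac

/-!
# From discs to connected sets of parameters
-/

set_option autoImplicit false

namespace Pool.Agent.H23HF

open MeasureTheory Set Metric Filter Topology Matrix
open scoped ENNReal NNReal
open Pool.Agent.R276.CP Pool.Agent.R276.CP.Pot Pool.Agent.Y271.CO

variable {X : Type} [NormedAddCommGroup X] [NormedSpace ℂ X] [CompleteSpace X]

theorem nearby {T : ℂ → X →L[ℂ] X} {k : ℂ} {Ω : Set ℂ} (hΩ : IsOpen Ω) (hk : k ∈ Ω)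
    (hT : DifferentiableOn ℂ T Ω) (n : ℕ) (hrk : ∀ κ ∈ Ω, RkLe (T κ - T k) n) :
    ∃ r : ℝ, 0 < r ∧ ∀ c ∈ ball k r, ∀ U : Set ℂ, IsOpen U → volume U ≠ ⊤ → Good (T c) U →
      (∀ m : Measure ℂ, LogBd m → ∀ᵐ κ ∂(m.restrict (ball k r)), Good (T κ) U) ∧
      dimH {κ | κ ∈ ball k r ∧ ¬ Good (T κ) U} = 0 := by
  have hTa : AnalyticAt ℂ T k := hT.analyticAt (hΩ.mem_nhds hk)
  obtain ⟨p, J, F, hJ, hF, hJF⟩ := fac k n (fun κ => T κ - T k) (hTa.sub analyticAt_const) (by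
    filter_upwards [(hΩ.mem_nhds hk : Ω ∈ 𝓝 k) |> fun h => nhdsWithin_le_nhds h] with κ hκ
    exact hrk κ hκ)
  obtain ⟨ρ, hρ, hball⟩ := Metric.eventually_nhds_iff_ball.1
    (hJF.and (hJ.eventually_analyticAt.and hF.eventually_analyticAt))
  obtain ⟨r, hr⟩ : ∃ r : ℝ, r = ρ / 14 := ⟨_, rfl⟩
  have hr0 : 0 < r := by rw [hr]; positivity
  refine ⟨r, hr0, ?_⟩
  intro c hc U hU hUf hg
  obtain ⟨e⟩ : Nonempty (((Fin p → ℂ) × (Fin p → ℂ)) ≃L[ℂ] (Fin (p + p) → ℂ)) :=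
    ⟨ContinuousLinearEquiv.ofFinrankEq (by simp)⟩
  obtain ⟨P₁, hP₁⟩ : ∃ P₁ : (Fin (p + p) → ℂ) →L[ℂ] (Fin p → ℂ),
    P₁ = (ContinuousLinearMap.fst ℂ _ _).comp (e.symm : _ →L[ℂ] (Fin p → ℂ) × (Fin p → ℂ)) :=
    ⟨_, rfl⟩
  obtain ⟨P₂, hP₂⟩ : ∃ P₂ : (Fin (p + p) → ℂ) →L[ℂ] (Fin p → ℂ),
    P₂ = (ContinuousLinearMap.snd ℂ _ _).comp (e.symm : _ →L[ℂ] (Fin p → ℂ) × (Fin p → ℂ)) :=
    ⟨_, rfl⟩
  obtain ⟨E₁, hE₁⟩ : ∃ E₁ : (Fin p → ℂ) →L[ℂ] (Fin (p + p) → ℂ),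
    E₁ = (e : (Fin p → ℂ) × (Fin p → ℂ) →L[ℂ] _).comp (ContinuousLinearMap.inl ℂ _ _) := ⟨_, rfl⟩
  obtain ⟨E₂, hE₂⟩ : ∃ E₂ : (Fin p → ℂ) →L[ℂ] (Fin (p + p) → ℂ),
    E₂ = (e : (Fin p → ℂ) × (Fin p → ℂ) →L[ℂ] _).comp (ContinuousLinearMap.inr ℂ _ _) := ⟨_, rfl⟩
  have k1 : ∀ v, P₁ (E₁ v) = v := fun v => by rw [hP₁, hE₁]; simp
  have k2 : ∀ v, P₂ (E₁ v) = 0 := fun v => by rw [hP₂, hE₁]; simp
  have k3 : ∀ v, P₁ (E₂ v) = 0 := fun v => by rw [hP₁, hE₂]; simp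
  have k4 : ∀ v, P₂ (E₂ v) = v := fun v => by rw [hP₂, hE₂]; simp
  obtain ⟨J', hJ'⟩ : ∃ J' : ℂ → (Fin (p + p) → ℂ) →L[ℂ] X,
    J' = fun κ => (J κ).comp P₁ - (J c).comp P₂ := ⟨_, rfl⟩
  obtain ⟨F', hF'⟩ : ∃ F' : ℂ → X →L[ℂ] (Fin (p + p) → ℂ),
    F' = fun κ => E₁.comp (F κ) + E₂.comp (F c) := ⟨_, rfl⟩
  have hprod : ∀ κ, (J' κ).comp (F' κ) = (J κ).comp (F κ) - (J c).comp (F c) := by
    intro κ
    rw [hJ', hF']
    ext y
    simp only [ContinuousLinearMap.comp_apply, _root_.add_apply, _root_.sub_apply, map_add, k1, k2,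
      k3, k4, map_zero]
    abel
  have hcρ : c ∈ ball k ρ := ball_subset_ball (by rw [hr]; linarith) hc
  have hOb : closedBall c (6 * (2 * r)) ⊆ ball k ρ := by
    intro x hx
    rw [mem_closedBall] at hx
    rw [mem_ball] at hc ⊢
    have := dist_triangle x c k
    have e1 : ρ = 14 * r := by rw [hr]; ring
    linarith
  have hJd : DifferentiableOn ℂ J' (ball k ρ) := by
    rw [hJ']
    have h1 : DifferentiableOn ℂ J (ball k ρ) :=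
      fun κ hκ => (hball κ hκ).2.1.differentiableAt.differentiableWithinAt
    have h2 : DifferentiableOn ℂ (fun _ : ℂ => P₁) (ball k ρ) := differentiableOn_const _
    exact (h1.clm_comp h2).sub_const _
  have hFd : DifferentiableOn ℂ F' (ball k ρ) := by
    rw [hF']
    have h1 : DifferentiableOn ℂ (fun _ : ℂ => E₁) (ball k ρ) := differentiableOn_const _
    have h2 : DifferentiableOn ℂ F (ball k ρ) :=
      fun κ hκ => (hball κ hκ).2.2.differentiableAt.differentiableWithinAt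
    exact (h1.clm_comp h2).add_const _
  have hTc : ∀ κ ∈ ball k ρ, T κ = T c + (1:ℂ) • (J' κ).comp (F' κ) := by
    intro κ hκ
    rw [one_smul, hprod κ, ← (hball κ hκ).1, ← (hball c hcρ).1]
    abel
  have hlocd := locd (T := T) (c := c) (r := 2 * r) (by positivity) isOpen_ball hOb hJd hFd hTc
    (by rw [hprod c, sub_self]) hU hUf hg
  have hincl : ball k r ⊆ ball c (2 * r) := by
    intro x hx
    rw [mem_ball] at hx hc ⊢
    have := dist_triangle x k c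
    rw [dist_comm k c] at this
    linarith
  refine ⟨fun m hm => ?_, ?_⟩
  · have hloc := loc (T := T) (c := c) (r := 2 * r) (by positivity) isOpen_ball hOb hJd hFd hTc
      (by rw [hprod c, sub_self]) hU hUf hg m hm
    exact ae_mono (Measure.restrict_mono_set m hincl) hloc
  · refine le_antisymm ((dimH_mono ?_).trans hlocd.le) zero_le
    rintro κ ⟨h1, h2⟩
    exact ⟨hincl h1, h2⟩

theorem glob {T : ℂ → X →L[ℂ] X} {Ω : Set ℂ} (hΩ : IsOpen Ω) (hc : IsPreconnected Ω)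
    (hT : DifferentiableOn ℂ T Ω) (n : ℕ) (hrk : ∀ κ ∈ Ω, ∀ κ' ∈ Ω, RkLe (T κ - T κ') n)
    {U : Set ℂ} (hU : IsOpen U) (hUf : volume U ≠ ⊤) (hvol : LogBd (volume : Measure ℂ))
    {κ₀ : ℂ} (hκ₀ : κ₀ ∈ Ω) (hg : Good (T κ₀) U) :
    (∀ m : Measure ℂ, LogBd m → ∀ᵐ κ ∂(m.restrict Ω), Good (T κ) U) ∧
      dimH {κ | κ ∈ Ω ∧ ¬ Good (T κ) U} = 0 := by
  have hn : ∀ k : ℂ, k ∈ Ω → ∃ r : ℝ, 0 < r ∧ ∀ c ∈ ball k r, ∀ U : Set ℂ, IsOpen U →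
      volume U ≠ ⊤ → Good (T c) U →
      (∀ m : Measure ℂ, LogBd m → ∀ᵐ κ ∂(m.restrict (ball k r)), Good (T κ) U) ∧
      dimH {κ | κ ∈ ball k r ∧ ¬ Good (T κ) U} = 0 := fun k hk =>
    nearby hΩ hk hT n fun κ hκ => hrk κ hκ k hk
  choose! r hr0 hr using hn
  obtain ⟨S, hS⟩ : ∃ S : Set ℂ, S = {k | ∃ c ∈ ball k (r k), Good (T c) U} := ⟨_, rfl⟩
  have hstep : ∀ x ∈ Ω, ∀ y ∈ Ω, (ball x (r x) ∩ ball y (r y)).Nonempty → x ∈ S → y ∈ S := by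
    intro x hx y hy hne hxS
    rw [hS] at hxS ⊢
    obtain ⟨c, hc1, hc2⟩ := hxS
    have h1 := (hr x hx c hc1 U hU hUf hc2).1 volume hvol
    have h2 : ∀ᵐ κ ∂((volume : Measure ℂ).restrict (ball x (r x) ∩ ball y (r y))), Good (T κ) U :=
      ae_mono (Measure.restrict_mono_set _ inter_subset_left) h1
    have h3 : (volume : Measure ℂ) (ball x (r x) ∩ ball y (r y)) ≠ 0 :=
      ((isOpen_ball.inter isOpen_ball).measure_pos volume hne).ne'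
    have h4 : ((volume : Measure ℂ).restrict (ball x (r x) ∩ ball y (r y))) ≠ 0 := by
      rwa [Ne, Measure.restrict_eq_zero]
    have h5 : NeBot (ae ((volume : Measure ℂ).restrict (ball x (r x) ∩ ball y (r y)))) :=
      ae_neBot.2 h4
    obtain ⟨κ, hκ1, hκ2⟩ := (h2.and (ae_restrict_mem
      (measurableSet_ball.inter measurableSet_ball))).exists
    exact ⟨κ, hκ2.2, hκ1⟩
  have hall : ∀ κ ∈ Ω, κ ∈ S := by
    intro κ hκ
    have h0 : κ₀ ∈ S := by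
      rw [hS]
      exact ⟨κ₀, mem_ball_self (hr0 κ₀ hκ₀), hg⟩
    refine hc.induction₂' (fun x y => x ∈ S → y ∈ S) ?_ (fun x y z _ _ _ h1 h2 h3 => h2 (h1 h3))
      hκ₀ hκ h0
    intro x hx
    have h1 : ball x (r x) ∩ Ω ∈ 𝓝[Ω] x :=
      inter_mem (nhdsWithin_le_nhds (ball_mem_nhds x (hr0 x hx))) self_mem_nhdsWithin
    filter_upwards [h1] with y hy
    have h2 : y ∈ ball x (r x) ∩ ball y (r y) := ⟨hy.1, mem_ball_self (hr0 y hy.2)⟩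
    exact ⟨hstep x hx y hy.2 ⟨y, h2⟩, hstep y hy.2 x hx ⟨y, h2.2, h2.1⟩⟩
  refine ⟨fun m hm => ?_, ?_⟩
  · rw [ae_restrict_iff' hΩ.measurableSet, ae_iff]
    refine measure_null_of_locally_null _ fun x hx => ?_
    simp only [Classical.not_imp, mem_ofPred_eq] at hx
    obtain ⟨hxΩ, -⟩ := hx
    obtain ⟨c, hc1, hc2⟩ := (hS ▸ hall x hxΩ : x ∈ {k | ∃ c ∈ ball k (r k), Good (T c) U})
    have h1 := (hr x hxΩ c hc1 U hU hUf hc2).1 m hm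
    rw [ae_restrict_iff' measurableSet_ball, ae_iff] at h1
    refine ⟨_, inter_mem_nhdsWithin _ (ball_mem_nhds x (hr0 x hxΩ)), ?_⟩
    refine measure_mono_null ?_ h1
    rintro y ⟨hy1, hy2⟩
    simp only [Classical.not_imp, mem_ofPred_eq] at hy1 ⊢
    exact ⟨hy2, hy1.2⟩
  · by_contra hcon
    obtain ⟨x, hx, hx'⟩ := exists_mem_nhdsWithin_lt_dimH_of_lt_dimH (pos_iff_ne_zero.2 hcon)
    obtain ⟨hxΩ, -⟩ := hx
    obtain ⟨c, hc1, hc2⟩ := (hS ▸ hall x hxΩ : x ∈ {k | ∃ c ∈ ball k (r k), Good (T c) U})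
    have h1 := (hr x hxΩ c hc1 U hU hUf hc2).2
    have h2 := hx' _ (inter_mem_nhdsWithin _ (ball_mem_nhds x (hr0 x hxΩ)))
    refine absurd h2 (not_lt.2 ?_)
    refine (dimH_mono ?_).trans h1.le
    rintro y ⟨hy1, hy2⟩
    exact ⟨hy2, hy1.2⟩

end Pool.Agent.H23HF
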