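import Pool.Agent.H23HF.Glob
import Pool.Agent.Y891.NK.AREA

/-!
# Unbounded sets `U`, and hyperinvariant subspaces
-/

set_option autoImplicit false

namespace Pool.Agent.H23HF

open MeasureTheory Set Metric Filter Topology Matrix
open scoped ENNReal NNReal
open Pool.Agent.R276.CP Pool.Agent.R276.CP.Pot Pool.Agent.Y271.CO

variable {X : Type} [NormedAddCommGroup X] [NormedSpace ℂ X] [CompleteSpace X]

theorem vol_logBd : LogBd (volume : Measure ℂ) := Pool.Agent.Y891.NK.main_vol.1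

theorem good_of_balls (T : X →L[ℂ] X) {U : Set ℂ} (hU : IsOpen U)
    (h : ∀ N : ℕ, Good T (U ∩ ball 0 (N : ℝ))) : Good T U := by
  refine ⟨?_, ?_⟩
  · refine measure_mono_null (t := ⋃ N : ℕ, spectrum ℂ T ∩ (U ∩ ball 0 (N : ℝ))) ?_
      (measure_iUnion_null fun N => (h N).1)
    rintro z ⟨h1, h2⟩
    obtain ⟨N, hN⟩ := exists_nat_gt ‖z‖
    exact mem_iUnion.2 ⟨N, h1, h2, mem_ball_zero_iff.2 hN⟩
  · obtain ⟨R, hR⟩ : ∃ R : ℝ, ∀ z : ℂ, R ≤ ‖z‖ → ‖resolvent T z‖ ≤ 1 := by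
      have h1 := (spectrum.resolvent_tendsto_cobounded (𝕜 := ℂ) T).norm
      rw [norm_zero] at h1
      have h2 := h1.eventually (Iic_mem_nhds (zero_lt_one (α := ℝ)))
      obtain ⟨R, -, hR⟩ := (hasBasis_cobounded_norm.eventually_iff).1 h2
      exact ⟨R, fun z hz => hR hz⟩
    obtain ⟨N, hN⟩ := exists_nat_gt R
    have h1 := (h N).2
    have h2 : IntegrableOn (fun z : ℂ => Real.posLog ‖resolvent T z‖) (U \ ball 0 (N : ℝ)) := by
      refine (integrableOn_zero (ε' := ℝ)).congr_fun (fun z hz => ?_)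
        (hU.measurableSet.diff measurableSet_ball)
      have h3 : R ≤ ‖z‖ := by
        have := hz.2
        rw [mem_ball_zero_iff, not_lt] at this
        linarith
      have h4 := hR z h3
      symm
      rw [Real.posLog_eq_zero_iff]
      rwa [abs_of_nonneg (norm_nonneg _)]
    refine (h1.union h2).mono_set fun z hz => ?_
    by_cases hz' : z ∈ ball (0:ℂ) (N : ℝ)
    · exact Or.inl ⟨hz, hz'⟩
    · exact Or.inr ⟨hz, hz'⟩

omit [CompleteSpace X] in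
theorem Good.mono {T : X →L[ℂ] X} {U V : Set ℂ} (h : Good T U) (hVU : V ⊆ U) : Good T V :=
  ⟨measure_mono_null (inter_subset_inter_right _ hVU) h.1, h.2.mono_set hVU⟩

theorem glob' {T : ℂ → X →L[ℂ] X} {Ω : Set ℂ} (hΩ : IsOpen Ω) (hc : IsPreconnected Ω)
    (hT : DifferentiableOn ℂ T Ω) (n : ℕ) (hrk : ∀ κ ∈ Ω, ∀ κ' ∈ Ω, RkLe (T κ - T κ') n)
    {U : Set ℂ} (hU : IsOpen U) {κ₀ : ℂ} (hκ₀ : κ₀ ∈ Ω) (hg : Good (T κ₀) U) :
    (∀ m : Measure ℂ, LogBd m → ∀ᵐ κ ∂(m.restrict Ω), Good (T κ) U) ∧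
      dimH {κ | κ ∈ Ω ∧ ¬ Good (T κ) U} = 0 := by
  have h1 := fun N : ℕ =>
    glob hΩ hc hT n hrk (hU.inter isOpen_ball)
      (ne_top_of_le_ne_top (measure_ball_lt_top (μ := (volume : Measure ℂ)) (x := (0 : ℂ))
        (r := (N : ℝ))).ne (measure_mono inter_subset_right))
      vol_logBd hκ₀ (hg.mono inter_subset_left)
  refine ⟨fun m hm => ?_, ?_⟩
  · have h2 := fun N => (h1 N).1 m hm
    rw [← ae_all_iff] at h2
    filter_upwards [h2] with κ hκ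
    exact good_of_balls _ hU hκ
  · refine le_antisymm ((dimH_mono (t := ⋃ N : ℕ, {κ | κ ∈ Ω ∧ ¬ Good (T κ) (U ∩ ball 0 (N : ℝ))})
      ?_).trans ?_) zero_le
    · rintro κ ⟨h2, h3⟩
      by_contra hcon
      simp only [mem_iUnion, not_exists] at hcon
      refine h3 (good_of_balls _ hU fun N => ?_)
      by_contra h4
      exact hcon N ⟨h2, h4⟩
    · rw [dimH_iUnion]
      exact iSup_le fun N => (h1 N).2.le

theorem hyper_of_good {T : X →L[ℂ] X} {U : Set ℂ} (hU : IsOpen U) (hg : Good T U) {c₁ c₂ : ℂ}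
    (h1 : c₁ ∈ spectrum ℂ T) (h1U : c₁ ∈ U) (h2 : c₂ ∈ spectrum ℂ T) (hc : c₂ ≠ c₁) :
    HasHyper T := by
  by_cases hn : (spectrum ℂ T ∩ U).Nontrivial
  · exact Pool.Agent.W610.HY.Cor.glob Pool.Agent.W610.HY.Reduct.loc Pool.Agent.W19.HY.RES.main
      Pool.Agent.W610.HY.Fin.hMEAS T U hU hn hg.1 hg.2
  · rw [not_nontrivial_iff] at hn
    exact isolated T h1 h2 hc hU h1U fun z hz hzV => hn ⟨hz, hzV⟩ ⟨h1, h1U⟩

omit [CompleteSpace X] in
theorem RkLe.fin {L : X →L[ℂ] X} {n : ℕ} (h : RkLe L n) :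
    FiniteDimensional ℂ (LinearMap.range (L : X →ₗ[ℂ] X)) := by
  obtain ⟨W, hW, -, h2⟩ := h
  refine Submodule.finiteDimensional_of_le (S₂ := W) ?_
  rintro _ ⟨y, rfl⟩
  exact h2 y

end Pool.Agent.H23HF
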