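import Pool.Agent.H23HF.Pot
import Pool.Agent.Y271.CO.Iso

/-!
# The local step: one good parameter makes almost all parameters of a disc good
-/

set_option autoImplicit false

namespace Pool.Agent.H23HF

open MeasureTheory Set Metric Filter Topology Matrix
open scoped ENNReal NNReal
open Pool.Agent.R276.CP Pool.Agent.R276.CP.Pot Pool.Agent.Y271.CO

theorem det_nil {n : ℕ} (S : Matrix (Fin n) (Fin n) ℂ) (h : S * S = 0) : (1 - S).det = 1 := by
  have h1 : IsNilpotent S := ⟨2, by rw [pow_two, h]⟩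
  have h2 := Matrix.isNilpotent_charpoly_sub_pow_of_isNilpotent h1
  have h3 : S.charpoly = Polynomial.X ^ Fintype.card (Fin n) := sub_eq_zero.1 h2.eq_zero
  have h4 := Matrix.eval_charpoly S 1
  rw [h3] at h4
  simpa using h4.symm

theorem det_diff {n : ℕ} {O : Set ℂ} (M : ℂ → Matrix (Fin n) (Fin n) ℂ)
    (h : ∀ i j, DifferentiableOn ℂ (fun κ => M κ i j) O) :
    DifferentiableOn ℂ (fun κ => (M κ).det) O := by
  simp only [Matrix.det_apply']
  refine DifferentiableOn.fun_sum fun σ _ => ?_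
  refine DifferentiableOn.const_mul ?_ _
  exact DifferentiableOn.fun_finsetProd fun i _ => h _ _

theorem det_cont {n : ℕ} {Y : Type} [TopologicalSpace Y] {O : Set Y}
    (M : Y → Matrix (Fin n) (Fin n) ℂ)
    (h : ∀ i j, ContinuousOn (fun κ => M κ i j) O) :
    ContinuousOn (fun κ => (M κ).det) O := by
  simp only [Matrix.det_apply']
  refine continuousOn_finsetSum _ fun σ _ => ?_
  refine continuousOn_const.mul ?_
  exact continuousOn_finsetProd _ fun i _ => h _ _

variable {X : Type} [NormedAddCommGroup X] [NormedSpace ℂ X]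

/-- bound of the determinant -/
theorem det_bd {n : ℕ} (F : X →L[ℂ] (Fin n → ℂ)) (J : (Fin n → ℂ) →L[ℂ] X) (R : X →L[ℂ] X)
    {B : ℝ} (hB : ‖F‖ * ‖J‖ ≤ B) (hB0 : 0 ≤ B) :
    ‖(1 - (1:ℂ) • Mx F J R).det‖ ≤ n.factorial * (1 + B * ‖R‖) ^ n := by
  have h1 : ∀ i' j', (IsAbsoluteValue.toAbsoluteValue (norm : ℂ → ℝ))
      ((1 - (1:ℂ) • Mx F J R) i' j') ≤ 1 + B * ‖R‖ := by
    intro i' j'
    show ‖(1 - (1:ℂ) • Mx F J R) i' j'‖ ≤ 1 + B * ‖R‖
    rw [Matrix.sub_apply, Matrix.smul_apply, smul_eq_mul, one_mul]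
    refine (norm_sub_le _ _).trans ?_
    have h2 : ‖(1 : Matrix (Fin n) (Fin n) ℂ) i' j'‖ ≤ 1 := by
      rw [Matrix.one_apply]
      split_ifs
      · rw [norm_one]
      · rw [norm_zero]; exact zero_le_one
    have h3 := (norm_Mx F J R i' j').trans (mul_le_mul_of_nonneg_right hB (norm_nonneg _))
    linarith
  have h4 := Matrix.det_le h1
  rw [Fintype.card_fin, nsmul_eq_mul] at h4
  exact h4

/-- the exponent in the bound of the determinant -/
theorem det_bd' {n : ℕ} {B : ℝ} (hB0 : 0 ≤ B) : ∃ C : ℝ, 0 ≤ C ∧ ∀ (F : X →L[ℂ] (Fin n → ℂ))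
    (J : (Fin n → ℂ) →L[ℂ] X) (R : X →L[ℂ] X), ‖F‖ * ‖J‖ ≤ B →
    ‖(1 - (1:ℂ) • Mx F J R).det‖ ≤ Real.exp (C + n * Real.posLog ‖R‖) := by
  refine ⟨Real.log n.factorial + n * (Real.log (1 + B)), ?_, ?_⟩
  · have h1 : 0 ≤ Real.log n.factorial := Real.log_natCast_nonneg _
    have h2 : 0 ≤ Real.log (1 + B) := Real.log_nonneg (by linarith)
    positivity
  intro F J R hFJ
  refine (det_bd F J R hFJ hB0).trans ?_
  have hf : (0:ℝ) < n.factorial := by exact_mod_cast n.factorial_pos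
  have h1 : 1 + B * ‖R‖ ≤ (1 + B) * Real.exp (Real.posLog ‖R‖) := by
    have h2 : (1:ℝ) ≤ Real.exp (Real.posLog ‖R‖) := by
      rw [← Real.exp_zero]
      exact Real.exp_le_exp.2 Real.posLog_nonneg
    have h3 : ‖R‖ ≤ Real.exp (Real.posLog ‖R‖) := by
      by_cases hR : ‖R‖ = 0
      · rw [hR]; positivity
      · have h4 : 0 < ‖R‖ := lt_of_le_of_ne (norm_nonneg _) (Ne.symm hR)
        calc ‖R‖ = Real.exp (Real.log ‖R‖) := (Real.exp_log h4).symm
          _ ≤ _ := Real.exp_le_exp.2 (le_max_right _ _)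
    have h5 := mul_le_mul_of_nonneg_left h3 hB0
    linarith
  have h2 : (1 + B * ‖R‖) ^ n ≤ ((1 + B) * Real.exp (Real.posLog ‖R‖)) ^ n :=
    pow_le_pow_left₀ (by positivity) h1 n
  have h3 : Real.exp (Real.log n.factorial + n * Real.log (1 + B) + n * Real.posLog ‖R‖) =
      n.factorial * ((1 + B) * Real.exp (Real.posLog ‖R‖)) ^ n := by
    rw [Real.exp_add, Real.exp_add, Real.exp_log hf, Real.exp_nat_mul, Real.exp_nat_mul,
      Real.exp_log (by linarith), mul_pow]
    ring
  rw [h3]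
  exact mul_le_mul_of_nonneg_left h2 hf.le

variable [CompleteSpace X]

/-- the resolvent of `T` is log-integrable on `U` -/
def Good (T : X →L[ℂ] X) (U : Set ℂ) : Prop :=
  volume (spectrum ℂ T ∩ U) = 0 ∧ IntegrableOn (fun z : ℂ => Real.posLog ‖resolvent T z‖) U

theorem cont_Mx {n : ℕ} (A : X →L[ℂ] X) (F : X →L[ℂ] (Fin n → ℂ)) (J : (Fin n → ℂ) →L[ℂ] X) :
    ContinuousOn (fun z => (1 - (1:ℂ) • Mx F J (resolvent A z)).det) (resolventSet ℂ A) := by
  have hres : ContinuousOn (fun z => resolvent A z) (resolventSet ℂ A) := fun z hz =>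
    (spectrum.hasDerivAt_resolvent_const_left hz).continuousAt.continuousWithinAt
  refine det_cont _ fun i j => ?_
  simp only [Matrix.sub_apply, Matrix.smul_apply, smul_eq_mul, one_mul]
  refine continuousOn_const.sub ?_
  have h1 : ContinuousOn (fun z => F (resolvent A z (J (Pi.single j 1)))) (resolventSet ℂ A) :=
    F.continuous.comp_continuousOn (hres.clm_apply continuousOn_const)
  exact continuousOn_pi.1 h1 i

/-- transfer of log-integrability -/
theorem transfer {n : ℕ} (A B : X →L[ℂ] X) (F : X →L[ℂ] (Fin n → ℂ)) (J : (Fin n → ℂ) →L[ℂ] X)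
    (hB : B = A + (1:ℂ) • J.comp F) {U : Set ℂ} (hU : IsOpen U) (hUf : volume U ≠ ⊤)
    (hg : Good A U)
    (hfin : ∫⁻ z in U ∩ resolventSet ℂ A, lm ‖(1 - (1:ℂ) • Mx F J (resolvent A z)).det‖ ≠ ⊤) :
    Good B U := by
  obtain ⟨V, hV⟩ : ∃ V, V = U ∩ resolventSet ℂ A := ⟨_, rfl⟩
  have hVo : IsOpen V := by
    rw [hV]
    exact hU.inter (spectrum.isOpen_resolventSet A)
  rw [← hV] at hfin
  obtain ⟨C, hC0, hC⟩ := res_bound F J 1 zero_le_one
  obtain ⟨D, hD⟩ : ∃ D : ℂ → ℂ, D = fun z => (1 - (1:ℂ) • Mx F J (resolvent A z)).det := ⟨_, rfl⟩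
  have hDc : ContinuousOn D V := by
    rw [hD]
    refine (cont_Mx A F J).mono ?_
    rw [hV]
    exact inter_subset_right
  have hDm : AEMeasurable (fun z => lm ‖D z‖) (volume.restrict V) :=
    measurable_lm.comp_aemeasurable (hDc.norm.aemeasurable hVo.measurableSet)
  have hfin' : ∫⁻ z in V, lm ‖D z‖ ≠ ⊤ := by rw [hD]; exact hfin
  have hne : ∀ᵐ z ∂(volume.restrict V), D z ≠ 0 := by
    filter_upwards [ae_lt_top' hDm hfin'] with z hz h0
    rw [h0, norm_zero] at hz
    unfold lm at hz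
    simp at hz
  have hzero : volume {z | z ∈ V ∧ D z = 0} = 0 := by
    rw [ae_restrict_iff' hVo.measurableSet] at hne
    refine measure_mono_null ?_ hne
    rintro z ⟨h1, h2⟩ h3
    exact h3 h1 h2
  have hin : ∀ z ∈ V, D z ≠ 0 → z ∈ resolventSet ℂ B := by
    intro z hz hd
    rw [hB]
    refine (hC A 1 z (by rw [norm_one]) ?_ ?_).1
    · rw [hV] at hz
      exact hz.2
    · rw [hD] at hd
      exact hd
  have hsub : spectrum ℂ B ∩ U ⊆ (spectrum ℂ A ∩ U) ∪ {z | z ∈ V ∧ D z = 0} := by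
    rintro z ⟨hz, hzU⟩
    by_cases hzA : z ∈ spectrum ℂ A
    · exact Or.inl ⟨hzA, hzU⟩
    · right
      have hzV : z ∈ V := by
        rw [hV]
        refine ⟨hzU, ?_⟩
        by_contra h
        exact hzA h
      refine ⟨hzV, ?_⟩
      by_contra hd
      exact hz (hin z hzV hd)
  have hnull : volume (spectrum ℂ B ∩ U) = 0 :=
    measure_mono_null hsub (measure_union_null hg.1 hzero)
  refine ⟨hnull, ?_⟩
  have hae : ∀ᵐ z ∂(volume.restrict U), z ∈ V ∧ D z ≠ 0 := by
    rw [ae_restrict_iff' hU.measurableSet]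
    filter_upwards [measure_eq_zero_iff_ae_notMem.1 (measure_union_null hg.1 hzero)] with z hz hzU
    have hzA : z ∈ resolventSet ℂ A := by
      by_contra h
      exact hz (Or.inl ⟨h, hzU⟩)
    have hzV : z ∈ V := by rw [hV]; exact ⟨hzU, hzA⟩
    exact ⟨hzV, fun hd => hz (Or.inr ⟨hzV, hd⟩)⟩
  have hmeas : StronglyMeasurable (fun z : ℂ => resolvent B z) :=
    Pool.Agent.W610.HY.Fin.hMEAS (X →L[ℂ] X) B
  refine ⟨(Real.continuous_posLog.measurable.comp hmeas.norm.measurable).aestronglyMeasurable, ?_⟩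
  have hle : ∀ᵐ z ∂(volume.restrict U), ‖Real.posLog ‖resolvent B z‖‖ₑ ≤
      (ENNReal.ofReal C + (n + 3) * ENNReal.ofReal (Real.posLog ‖resolvent A z‖)) +
        V.indicator (fun z => lm ‖D z‖) z := by
    filter_upwards [hae] with z hz
    have hzA : z ∈ resolventSet ℂ A := by
      have := hz.1
      rw [hV] at this
      exact this.2
    have h1 := (hC A 1 z (by rw [norm_one]) hzA (by
      have := hz.2
      rw [hD] at this
      exact this)).2
    rw [← hB] at h1
    rw [Real.enorm_of_nonneg Real.posLog_nonneg, indicator_of_mem hz.1]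
    refine (ENNReal.ofReal_le_ofReal h1).trans ?_
    refine ENNReal.ofReal_add_le.trans ?_
    refine add_le_add ?_ ?_
    · refine ENNReal.ofReal_add_le.trans ?_
      refine add_le_add le_rfl ?_
      rw [ENNReal.ofReal_mul (by positivity)]
      refine mul_le_mul_left ?_ _
      rw [ENNReal.ofReal_add (Nat.cast_nonneg n) (by norm_num), ENNReal.ofReal_natCast]
      simp
    · unfold lm
      rw [if_neg (norm_ne_zero_iff.2 hz.2), hD]
  refine (lintegral_mono_ae hle).trans_lt ?_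
  have hm2 : AEMeasurable (V.indicator (fun z => lm ‖D z‖)) (volume.restrict U) := by
    refine AEMeasurable.restrict ?_
    rw [aemeasurable_indicator_iff hVo.measurableSet]
    exact hDm
  rw [lintegral_add_right' _ hm2]
  refine ENNReal.add_lt_top.2 ⟨?_, ?_⟩
  · rw [lintegral_add_left measurable_const]
    refine ENNReal.add_lt_top.2 ⟨?_, ?_⟩
    · rw [lintegral_const, Measure.restrict_apply_univ]
      exact ENNReal.mul_lt_top ENNReal.ofReal_lt_top hUf.lt_top
    · rw [lintegral_const_mul' _ _ (by finiteness)]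
      refine ENNReal.mul_lt_top (by finiteness) ?_
      have h2 := hg.2.2
      refine lt_of_le_of_lt (lintegral_mono fun z => ?_) h2
      rw [Real.enorm_of_nonneg Real.posLog_nonneg]
  · rw [lintegral_indicator hVo.measurableSet]
    refine lt_of_le_of_lt ?_ hfin'.lt_top
    exact lintegral_mono' (Measure.restrict_mono_measure Measure.restrict_le_self _) le_rfl

end Pool.Agent.H23HF
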