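import Pool.Agent.H23HF.Fac

/-!
# Holomorphic families of finite rank operators have bounded rank
-/

set_option autoImplicit false

namespace Pool.Agent.H23HF

open MeasureTheory Set Metric Filter Topology Matrix

variable {X : Type} [NormedAddCommGroup X] [NormedSpace ℂ X]

theorem RkLe.minor {L : X →L[ℂ] X} {n : ℕ} (h : RkLe L n) (x : Fin (n + 1) → X)
    (f : Fin (n + 1) → X →L[ℂ] ℂ) :
    (Matrix.of fun i j => f i (L (x j))).det = 0 := by
  obtain ⟨W, hW, h1, h2⟩ := h
  have hdep : ¬ LinearIndependent ℂ (fun j : Fin (n + 1) => (⟨L (x j), h2 (x j)⟩ : W)) := by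
    intro hli
    have := hli.fintype_card_le_finrank
    rw [Fintype.card_fin] at this
    omega
  rw [Fintype.not_linearIndependent_iff] at hdep
  obtain ⟨g, hg, i, hi⟩ := hdep
  rw [← Matrix.exists_mulVec_eq_zero_iff]
  refine ⟨g, fun h0 => hi (by rw [h0]; rfl), ?_⟩
  ext k
  have h3 : ∑ j, g j • L (x j) = 0 := by
    have := congrArg (fun w : W => (w : X)) hg
    simpa using this
  have h4 : f k (∑ j, g j • L (x j)) = 0 := by rw [h3, map_zero]
  rw [map_sum] at h4
  simp only [map_smul, smul_eq_mul] at h4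
  simp only [Matrix.mulVec, dotProduct, Matrix.of_apply, Pi.zero_apply]
  rw [← h4]
  exact Finset.sum_congr rfl fun j _ => mul_comm _ _

theorem rkLe_of_minors {L : X →L[ℂ] X} {n : ℕ}
    (hL : FiniteDimensional ℂ (LinearMap.range (L : X →ₗ[ℂ] X)))
    (h : ∀ (x : Fin (n + 1) → X) (f : Fin (n + 1) → X →L[ℂ] ℂ),
      (Matrix.of fun i j => f i (L (x j))).det = 0) : RkLe L n := by
  refine ⟨LinearMap.range (L : X →ₗ[ℂ] X), hL, ?_, fun y => ⟨y, rfl⟩⟩
  by_contra hcon
  push Not at hcon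
  set W := LinearMap.range (L : X →ₗ[ℂ] X) with hW
  let b := Module.finBasis ℂ W
  let c : Fin (n + 1) → Fin (Module.finrank ℂ W) := Fin.castLE hcon
  have hc : Function.Injective c := Fin.castLE_injective hcon
  have hx : ∀ j, ∃ x : X, L x = (b (c j) : X) := by
    intro j
    obtain ⟨x, hx⟩ := (b (c j)).2
    exact ⟨x, hx⟩
  choose x hx using hx
  have hf : ∀ i, ∃ f : X →L[ℂ] ℂ, ∀ w : W, f w = b.coord (c i) w := by
    intro i
    obtain ⟨g, hg, -⟩ := exists_extension_norm_eq W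
      (LinearMap.toContinuousLinearMap (b.coord (c i)))
    exact ⟨g, fun w => by rw [hg w]; rfl⟩
  choose f hf using hf
  have h1 := h x f
  have h2 : (Matrix.of fun i j => f i (L (x j))) = (1 : Matrix (Fin (n + 1)) (Fin (n + 1)) ℂ) := by
    ext i j
    rw [Matrix.of_apply, hx, hf, Module.Basis.coord_apply, Module.Basis.repr_self, Matrix.one_apply]
    by_cases hij : i = j
    · subst hij
      simp
    · rw [if_neg hij, Finsupp.single_eq_of_ne]
      intro h'
      exact hij (hc h')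
  rw [h2, Matrix.det_one] at h1
  exact one_ne_zero h1

theorem exists_acc {C : Set ℂ} (hC : ¬ C.Countable) : ∃ x ∈ C, ∃ᶠ z in 𝓝[≠] x, z ∈ C := by
  by_contra hcon
  push Not at hcon
  apply hC
  have h1 : DiscreteTopology C := by
    rw [discreteTopology_subtype_iff]
    intro x hx
    have h2 := hcon x hx
    rw [← Filter.empty_mem_iff_bot, Filter.mem_inf_principal]
    filter_upwards [h2] with z hz hz'
    exact hz hz'
  have h2 : Countable C := countable_of_Lindelof_of_discrete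
  exact h2

theorem uniform {Ω : Set ℂ} (hΩ : IsOpen Ω) (hc : IsPreconnected Ω) (hne : Ω.Nonempty)
    {K : ℂ → X →L[ℂ] X} (hK : AnalyticOnNhd ℂ K Ω)
    (hfin : ∀ κ ∈ Ω, FiniteDimensional ℂ (LinearMap.range (K κ : X →ₗ[ℂ] X))) :
    ∃ n, ∀ κ ∈ Ω, RkLe (K κ) n := by
  have hunc : ¬ Ω.Countable := by
    intro h
    exact (hΩ.measure_pos (volume : Measure ℂ) hne).ne' (h.measure_zero volume)
  obtain ⟨n, hn⟩ : ∃ n : ℕ, ¬ {κ | κ ∈ Ω ∧ RkLe (K κ) n}.Countable := by
    by_contra hcon
    push Not at hcon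
    apply hunc
    refine (countable_iUnion hcon).mono fun κ hκ => ?_
    have := hfin κ hκ
    exact mem_iUnion.2 ⟨Module.finrank ℂ (LinearMap.range (K κ : X →ₗ[ℂ] X)), hκ,
      LinearMap.range (K κ : X →ₗ[ℂ] X), this, le_rfl, fun y => ⟨y, rfl⟩⟩
  refine ⟨n, fun κ hκ => rkLe_of_minors (hfin κ hκ) fun x f => ?_⟩
  obtain ⟨k, hk, hacc⟩ := exists_acc hn
  have han : AnalyticOnNhd ℂ (fun κ => (Matrix.of fun i j => f i (K κ (x j))).det) Ω := by
    intro κ hκ
    have h1 : ∀ i j, AnalyticAt ℂ (fun κ => f i (K κ (x j))) κ := fun i j =>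
      ((f i).analyticAt _).comp (((ContinuousLinearMap.apply ℂ X (x j)).analyticAt _).comp (hK κ hκ))
    simp only [Matrix.det_apply', Matrix.of_apply]
    refine Finset.analyticAt_fun_sum _ fun σ _ => ?_
    refine analyticAt_const.mul ?_
    exact Finset.analyticAt_fun_prod _ fun i _ => h1 _ _
  exact han.eqOn_zero_of_preconnected_of_frequently_eq_zero hc hk.1
    (hacc.mono fun z hz => hz.2.minor x f) hκ

theorem RkLe.sub {L L' : X →L[ℂ] X} {n n' : ℕ} (h : RkLe L n) (h' : RkLe L' n') :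
    RkLe (L - L') (n + n') := by
  obtain ⟨W, hW, h1, h2⟩ := h
  obtain ⟨W', hW', h1', h2'⟩ := h'
  refine ⟨W ⊔ W', inferInstance, ?_, fun y => ?_⟩
  · have := Submodule.finrank_add_le_finrank_add_finrank W W'
    omega
  · exact Submodule.sub_mem _ (Submodule.mem_sup_left (h2 y)) (Submodule.mem_sup_right (h2' y))

end Pool.Agent.H23HF
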