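import Pool.Agent.H23HF.Hyp
import Pool.Agent.H23HF.Rank
import Pool.Agent.Y271.CO.Cor

/-!
# The main theorems for one parameter
-/

set_option autoImplicit false

namespace Pool.Agent.H23HF

open MeasureTheory Set Metric Filter Topology Matrix
open scoped ENNReal NNReal
open Pool.Agent.R276.CP Pool.Agent.R276.CP.Pot Pool.Agent.Y271.CO

variable {X : Type} [NormedAddCommGroup X] [NormedSpace ℂ X] [CompleteSpace X]

/-- negligible sets of parameters -/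
def Negl (E : Set ℂ) : Prop :=
  dimH E = 0 ∧ ∀ m : Measure ℂ, LogBd m → m E = 0

theorem Negl.mono {E E' : Set ℂ} (h : Negl E) (hE : E' ⊆ E) : Negl E' :=
  ⟨le_antisymm ((dimH_mono hE).trans h.1.le) zero_le, fun m hm => measure_mono_null hE (h.2 m hm)⟩

theorem main_good {T : ℂ → X →L[ℂ] X} {Ω : Set ℂ} (hΩ : IsOpen Ω) (hc : IsPreconnected Ω)
    (hT : DifferentiableOn ℂ T Ω) {κ₀ : ℂ} (hκ₀ : κ₀ ∈ Ω)
    (hfin : ∀ κ ∈ Ω, FiniteDimensional ℂ (LinearMap.range ((T κ - T κ₀ : X →L[ℂ] X) : X →ₗ[ℂ] X)))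
    {U : Set ℂ} (hU : IsOpen U) (hg : Good (T κ₀) U) :
    Negl {κ | κ ∈ Ω ∧ ¬ Good (T κ) U} := by
  obtain ⟨n, hn⟩ := uniform hΩ hc ⟨κ₀, hκ₀⟩ (K := fun κ => T κ - T κ₀)
    (fun κ hκ => (hT.analyticAt (hΩ.mem_nhds hκ)).sub analyticAt_const) hfin
  have hrk : ∀ κ ∈ Ω, ∀ κ' ∈ Ω, RkLe (T κ - T κ') (n + n) := by
    intro κ hκ κ' hκ'
    have := (hn κ hκ).sub (hn κ' hκ')
    rwa [sub_sub_sub_cancel_right] at this
  obtain ⟨h1, h2⟩ := glob' hΩ hc hT (n + n) hrk hU hκ₀ hg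
  refine ⟨h2, fun m hm => ?_⟩
  have h3 := h1 m hm
  rw [ae_restrict_iff' hΩ.measurableSet, ae_iff] at h3
  refine measure_mono_null ?_ h3
  rintro κ ⟨h4, h5⟩ h6
  exact h5 (h6 h4)

omit [CompleteSpace X] in
theorem weyl_sub {A B : X →L[ℂ] X}
    (h : FiniteDimensional ℂ (LinearMap.range ((B - A : X →L[ℂ] X) : X →ₗ[ℂ] X))) {c : ℂ}
    (hc : c ∈ weyl A) : c ∈ spectrum ℂ B := by
  have h1 := hc (B - A) h
  rwa [add_sub_cancel] at h1

theorem main_hyper {T : ℂ → X →L[ℂ] X} {Ω : Set ℂ} (hΩ : IsOpen Ω) (hc : IsPreconnected Ω)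
    (hT : DifferentiableOn ℂ T Ω) {κ₀ : ℂ} (hκ₀ : κ₀ ∈ Ω)
    (hfin : ∀ κ ∈ Ω, FiniteDimensional ℂ (LinearMap.range ((T κ - T κ₀ : X →L[ℂ] X) : X →ₗ[ℂ] X)))
    {U : Set ℂ} (hU : IsOpen U) (hg : Good (T κ₀) U)
    (hU1 : (weyl (T κ₀) ∩ U).Nonempty) (hU2 : (weyl (T κ₀)).Nontrivial) :
    Negl {κ | κ ∈ Ω ∧ ¬ HasHyper (T κ)} := by
  refine (main_good hΩ hc hT hκ₀ hfin hU hg).mono ?_
  obtain ⟨c₁, hc₁, hc₁U⟩ := hU1
  obtain ⟨c₂, hc₂, hne⟩ := hU2.exists_ne c₁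
  rintro κ ⟨h1, h2⟩
  refine ⟨h1, fun h3 => h2 ?_⟩
  exact hyper_of_good hU h3 (weyl_sub (hfin κ h1) hc₁) hc₁U (weyl_sub (hfin κ h1) hc₂) hne

variable {H : Type} [NormedAddCommGroup H] [InnerProductSpace ℂ H] [CompleteSpace H]

/-- a good operator which differs from a normal one by a finite rank operator -/
theorem hyper_normal (N B : H →L[ℂ] H) (hN : IsStarNormal N)
    (hL : FiniteDimensional ℂ (LinearMap.range ((B - N : H →L[ℂ] H) : H →ₗ[ℂ] H)))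
    (hg : Good B univ) (h2 : ¬ ∃ c : ℂ, B = c • (1 : H →L[ℂ] H)) : HasHyper B := by
  have hH : Nontrivial H := by
    by_contra hcon
    rw [not_nontrivial_iff_subsingleton] at hcon
    refine h2 ⟨0, ?_⟩
    ext v
    exact Subsingleton.elim _ _
  by_cases hn : (spectrum ℂ B).Nontrivial
  · obtain ⟨c₁, hc₁, c₂, hc₂, hne⟩ := hn
    exact hyper_of_good isOpen_univ hg hc₁ (mem_univ _) hc₂ hne.symm
  · obtain ⟨c, hc⟩ := spectrum.nonempty B
    have hsc : spectrum ℂ B = {c} := by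
      rw [not_nontrivial_iff] at hn
      exact hn.eq_singleton_of_mem hc
    have hKc : IsCompactOperator (B - N : H →L[ℂ] H) := finrank_compact _ hL
    have hB : N + (B - N) = B := by abel
    have h3 := Pool.Agent.W806.HI.main H N (B - N) c hN hKc (by rw [hB]; exact hsc)
    have h4 : IsCompactOperator (B - c • (1 : H →L[ℂ] H)) := by
      have h5 := h3.add hKc
      have e : B - c • (1 : H →L[ℂ] H) = (N - c • (1 : H →L[ℂ] H)) + (B - N) := by abel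
      rw [e]
      exact h5
    have h6 : ¬ Pool.Agent.W402.HI.IsScalar (B - c • (1 : H →L[ℂ] H)) := by
      rintro ⟨a, ha⟩
      apply h2
      refine ⟨a + c, ?_⟩
      rw [add_smul, ← ha]
      abel
    obtain ⟨V, v1, v2, v3, v4⟩ := Pool.Agent.W577.HI.G1.main H _ h4 h6
    refine ⟨V, v1, v2, v3, fun Q hQ v hv => v4 Q ?_ v hv⟩
    rw [mul_sub, sub_mul, hQ, mul_smul_comm, smul_mul_assoc, mul_one, one_mul]

theorem good_thin (N : H →L[ℂ] H) (hN : IsStarNormal N)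
    (ht : Pool.Agent.Y271.CO.Thin (spectrum ℂ N)) : Good N univ := by
  rcases subsingleton_or_nontrivial H with hH | hH
  · have h1 : spectrum ℂ N = ∅ := spectrum.of_subsingleton (R := ℂ) N
    refine ⟨by rw [h1]; simp, ?_⟩
    have h2 : (fun z : ℂ => Real.posLog ‖resolvent N z‖) = fun _ => 0 := by
      funext z
      rw [Subsingleton.elim (resolvent N z) 0, norm_zero, Real.posLog_zero]
    rw [h2]
    exact integrableOn_zero
  · refine good_of_balls N isOpen_univ fun R => ?_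
    obtain ⟨l1, l2⟩ := log_int N hN ht (R : ℝ)
    rw [univ_inter]
    exact ⟨l1, l2⟩

theorem main_normal {T : ℂ → H →L[ℂ] H} {Ω : Set ℂ} (hΩ : IsOpen Ω) (hc : IsPreconnected Ω)
    (hT : DifferentiableOn ℂ T Ω) {κ₀ : ℂ} (hκ₀ : κ₀ ∈ Ω) (hN : IsStarNormal (T κ₀))
    (ht : Pool.Agent.Y271.CO.Thin (spectrum ℂ (T κ₀)))
    (hfin : ∀ κ ∈ Ω, FiniteDimensional ℂ (LinearMap.range ((T κ - T κ₀ : H →L[ℂ] H) : H →ₗ[ℂ] H))) :
    Negl {κ | κ ∈ Ω ∧ ¬ HasHyper (T κ) ∧ ¬ ∃ c : ℂ, T κ = c • (1 : H →L[ℂ] H)} := by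
  refine (main_good hΩ hc hT hκ₀ hfin isOpen_univ (good_thin _ hN ht)).mono ?_
  rintro κ ⟨h1, h2, h3⟩
  exact ⟨h1, fun h4 => h2 (hyper_normal (T κ₀) (T κ) hN (hfin κ h1) h4 h3)⟩

end Pool.Agent.H23HF
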