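import Pool.Agent.H23HF.Main

/-!
# The set of the good parameters is measurable
-/

set_option autoImplicit false

namespace Pool.Agent.H23HF

open MeasureTheory Set Metric Filter Topology
open scoped ENNReal NNReal

variable {X : Type} [NormedAddCommGroup X] [NormedSpace ℂ X] [CompleteSpace X]

theorem meas_good {E : Type} [NormedAddCommGroup E] [MeasurableSpace E] [BorelSpace E]
    [SecondCountableTopology E] {T : E → X →L[ℂ] X} {Ω : Set E} (hΩ : IsOpen Ω)
    (hT : ContinuousOn T Ω) {U : Set ℂ} (hU : IsOpen U) :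
    MeasurableSet {κ | κ ∈ Ω ∧ Good (T κ) U} := by
  classical
  -- the open set of the pairs with `z` in the resolvent set
  obtain ⟨f, hf⟩ : ∃ f : E × ℂ → X →L[ℂ] X, f = fun p => algebraMap ℂ (X →L[ℂ] X) p.2 - T p.1 :=
    ⟨_, rfl⟩
  have hfc : ContinuousOn f (Ω ×ˢ univ) := by
    rw [hf]
    refine ContinuousOn.sub ?_ ?_
    · exact ((algebraMapCLM ℂ (X →L[ℂ] X)).continuous.comp continuous_snd).continuousOn
    · exact hT.comp continuousOn_fst fun p hp => hp.1
  obtain ⟨P, hP⟩ : ∃ P : Set (E × ℂ), P = (Ω ×ˢ univ) ∩ f ⁻¹' {a | IsUnit a} := ⟨_, rfl⟩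
  have hPo : IsOpen P := by
    rw [hP]
    exact hfc.isOpen_inter_preimage (hΩ.prod isOpen_univ) Units.isOpen
  have hPmem : ∀ κ ∈ Ω, ∀ z, (κ, z) ∈ P ↔ z ∉ spectrum ℂ (T κ) := by
    intro κ hκ z
    rw [hP, spectrum.notMem_iff, hf]
    exact ⟨fun h => h.2, fun h => ⟨⟨hκ, mem_univ _⟩, h⟩⟩
  -- the norm of the resolvent
  obtain ⟨g, hg⟩ : ∃ g : E × ℂ → ℝ, g = P.piecewise (fun p => Real.posLog ‖Ring.inverse (f p)‖)
    (fun _ => 0) := ⟨_, rfl⟩
  have hgm : Measurable g := by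
    rw [hg]
    refine ContinuousOn.measurable_piecewise ?_ continuousOn_const hPo.measurableSet
    refine Real.continuous_posLog.comp_continuousOn (ContinuousOn.norm ?_)
    intro p hp
    rw [hP] at hp
    obtain ⟨u, hu⟩ := hp.2
    have h1 : ContinuousAt Ring.inverse (f p) := by
      rw [← hu]
      exact NormedRing.inverse_continuousAt u
    have h2 : ContinuousWithinAt f P p := by
      refine (hfc p hp.1).mono ?_
      rw [hP]
      exact inter_subset_left
    exact h1.comp_continuousWithinAt h2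
  have hgv : ∀ κ ∈ Ω, ∀ z, g (κ, z) = Real.posLog ‖resolvent (T κ) z‖ := by
    intro κ hκ z
    by_cases hz : z ∈ spectrum ℂ (T κ)
    · have h1 : (κ, z) ∉ P := fun h => (hPmem κ hκ z).1 h hz
      have h2 : resolvent (T κ) z = 0 := by
        rw [spectrum.mem_iff] at hz
        exact Ring.inverse_non_unit _ hz
      rw [hg, Set.piecewise_eq_of_notMem _ _ _ h1, h2, norm_zero, Real.posLog_zero]
    · have h1 : (κ, z) ∈ P := (hPmem κ hκ z).2 hz
      rw [hg, Set.piecewise_eq_of_mem _ _ _ h1, hf]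
      rfl
  have hm1 : Measurable fun κ : E => (volume : Measure ℂ) (Prod.mk κ ⁻¹' (Pᶜ ∩ (univ ×ˢ U))) :=
    measurable_measure_prodMk_left (hPo.measurableSet.compl.inter
      (MeasurableSet.univ.prod hU.measurableSet))
  have hm2 : Measurable fun κ : E => ∫⁻ z in U, ENNReal.ofReal (g (κ, z)) :=
    (hgm.ennreal_ofReal).lintegral_prod_right'
  have heq : {κ | κ ∈ Ω ∧ Good (T κ) U} = Ω ∩
      ({κ | (volume : Measure ℂ) (Prod.mk κ ⁻¹' (Pᶜ ∩ (univ ×ˢ U))) = 0} ∩
      {κ | ∫⁻ z in U, ENNReal.ofReal (g (κ, z)) < ⊤}) := by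
    ext κ
    constructor
    · rintro ⟨h1, h2, h3⟩
      refine ⟨h1, ?_, ?_⟩
      · show (volume : Measure ℂ) (Prod.mk κ ⁻¹' (Pᶜ ∩ (univ ×ˢ U))) = 0
        refine measure_mono_null ?_ h2
        rintro z ⟨h4, h5⟩
        refine ⟨?_, h5.2⟩
        by_contra h6
        exact h4 ((hPmem κ h1 z).2 h6)
      · show ∫⁻ z in U, ENNReal.ofReal (g (κ, z)) < ⊤
        refine lt_of_le_of_lt (lintegral_mono fun z => ?_) h3.2
        rw [hgv κ h1 z, Real.enorm_of_nonneg Real.posLog_nonneg]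
    · rintro ⟨h1, h2, h3⟩
      refine ⟨h1, ?_, ?_⟩
      · refine measure_mono_null ?_ (h2 : (volume : Measure ℂ) (Prod.mk κ ⁻¹' (Pᶜ ∩ (univ ×ˢ U))) = 0)
        rintro z ⟨h4, h5⟩
        exact ⟨fun h6 => (hPmem κ h1 z).1 h6 h4, mem_univ _, h5⟩
      · have hmeas : StronglyMeasurable (fun z : ℂ => resolvent (T κ) z) :=
          Pool.Agent.W610.HY.Fin.hMEAS (X →L[ℂ] X) (T κ)
        refine ⟨(Real.continuous_posLog.measurable.comp
          hmeas.norm.measurable).aestronglyMeasurable, ?_⟩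
        refine lt_of_le_of_lt (lintegral_mono fun z => ?_) h3
        rw [hgv κ h1 z, Real.enorm_of_nonneg Real.posLog_nonneg]
  rw [heq]
  refine hΩ.measurableSet.inter (MeasurableSet.inter ?_ ?_)
  · exact hm1 (measurableSet_singleton 0)
  · exact hm2 measurableSet_Iio

end Pool.Agent.H23HF
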