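import Pool.Agent.H23HF.Several
import Pool.Agent.H792R2.CE.D4

/-!
# Polynomials of operators with log-integrable resolvent
-/

set_option autoImplicit false

namespace Pool.Agent.H23HF

open MeasureTheory Set Metric Filter Topology
open scoped ENNReal NNReal
open Pool.Agent.Y271.CO

variable {X : Type} [NormedAddCommGroup X] [NormedSpace ℂ X]

/-- the inverse of a product of linear factors -/
theorem inv_prod (A : X →L[ℂ] X) (S : Multiset ℂ) (hS : ∀ z ∈ S, z ∈ resolventSet ℂ A) :
    ∃ B : X →L[ℂ] X,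
      B * Polynomial.aeval A (S.map (fun z => Polynomial.X - Polynomial.C z)).prod = 1 ∧
      Polynomial.aeval A (S.map (fun z => Polynomial.X - Polynomial.C z)).prod * B = 1 ∧
      Real.posLog ‖B‖ ≤ (S.map (fun z => Real.posLog ‖resolvent A z‖)).sum := by
  induction S using Multiset.induction_on with
  | empty =>
    refine ⟨1, by simp, by simp, ?_⟩
    simp only [Multiset.map_zero, Multiset.sum_zero]
    rw [(Real.posLog_eq_zero_iff _).2]
    rw [abs_of_nonneg (norm_nonneg _)]
    exact ContinuousLinearMap.norm_id_le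
  | cons z S ih =>
    obtain ⟨B, h1, h2, h3⟩ := ih fun w hw => hS w (Multiset.mem_cons_of_mem hw)
    have hz := hS z (Multiset.mem_cons_self z S)
    have hu : IsUnit (algebraMap ℂ (X →L[ℂ] X) z - A) := by
      simpa [spectrum.mem_resolventSet_iff] using hz
    obtain ⟨R, hR⟩ : ∃ R, R = resolvent A z := ⟨_, rfl⟩
    have hRl : R * (algebraMap ℂ (X →L[ℂ] X) z - A) = 1 := by
      rw [hR]; exact Ring.inverse_mul_cancel _ hu
    have hRr : (algebraMap ℂ (X →L[ℂ] X) z - A) * R = 1 := by
      rw [hR]; exact Ring.mul_inverse_cancel _ hu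
    have hA : A - algebraMap ℂ (X →L[ℂ] X) z = -(algebraMap ℂ (X →L[ℂ] X) z - A) := by abel
    refine ⟨-(B * R), ?_, ?_, ?_⟩
    · rw [Multiset.map_cons, Multiset.prod_cons, map_mul, map_sub, Polynomial.aeval_X,
        Polynomial.aeval_C, hA, neg_mul, neg_mul, mul_neg, neg_neg, mul_assoc B R, ← mul_assoc R,
        hRl, one_mul, h1]
    · rw [Multiset.map_cons, Multiset.prod_cons, map_mul, map_sub, Polynomial.aeval_X,
        Polynomial.aeval_C, hA, neg_mul, neg_mul, mul_neg, neg_neg, mul_assoc, ← mul_assoc _ B R,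
        h2, one_mul, hRr]
    · rw [norm_neg, Multiset.map_cons, Multiset.sum_cons, add_comm, ← hR]
      calc Real.posLog ‖B * R‖ ≤ Real.posLog (‖B‖ * ‖R‖) :=
            Real.posLog_le_posLog (norm_nonneg _) (norm_mul_le _ _)
        _ ≤ Real.posLog ‖B‖ + Real.posLog ‖R‖ := Real.posLog_mul
        _ ≤ _ := add_le_add h3 le_rfl

variable [CompleteSpace X]

omit [CompleteSpace X] in
/-- the resolvent of `p(A)` -/
theorem res_poly (A : X →L[ℂ] X) (p : Polynomial ℂ) (hp : 0 < p.degree) (w : ℂ)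
    (hw : w ∉ (fun z => p.eval z) '' spectrum ℂ A) :
    Real.posLog ‖resolvent (Polynomial.aeval A p) w‖ ≤ Real.posLog ‖p.leadingCoeff‖⁻¹ +
      ((p - Polynomial.C w).roots.map (fun z => Real.posLog ‖resolvent A z‖)).sum := by
  have hne : p - Polynomial.C w ≠ 0 := by
    intro h0
    rw [sub_eq_zero] at h0
    rw [h0] at hp
    exact absurd Polynomial.degree_C_le (not_le.2 hp)
  have hlead : (p - Polynomial.C w).leadingCoeff = p.leadingCoeff :=
    Polynomial.leadingCoeff_sub_of_degree_lt (lt_of_le_of_lt Polynomial.degree_C_le hp)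
  have hl0 : p.leadingCoeff ≠ 0 := by
    rw [← hlead]
    exact Polynomial.leadingCoeff_ne_zero.2 hne
  have hroots : ∀ z ∈ (p - Polynomial.C w).roots, z ∈ resolventSet ℂ A := by
    intro z hz
    by_contra hcon
    apply hw
    refine ⟨z, hcon, ?_⟩
    have h1 := (Polynomial.mem_roots hne).1 hz
    rw [Polynomial.IsRoot.def, Polynomial.eval_sub, Polynomial.eval_C, sub_eq_zero] at h1
    exact h1
  obtain ⟨B, h1, h2, h3⟩ := inv_prod A (p - Polynomial.C w).roots hroots
  have hfac := (IsAlgClosed.splits (p - Polynomial.C w)).eq_prod_roots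
  rw [hlead] at hfac
  obtain ⟨Q, hQ⟩ : ∃ Q, Q = Polynomial.aeval A
    ((p - Polynomial.C w).roots.map (fun z => Polynomial.X - Polynomial.C z)).prod := ⟨_, rfl⟩
  rw [← hQ] at h1 h2
  have hop : algebraMap ℂ (X →L[ℂ] X) w - Polynomial.aeval A p = -(p.leadingCoeff • Q) := by
    have h4 : Polynomial.aeval A (p - Polynomial.C w) = p.leadingCoeff • Q := by
      rw [hfac, map_mul, Polynomial.aeval_C, hQ, Algebra.smul_def]
    rw [← h4, map_sub, Polynomial.aeval_C]
    abel
  have hB1 : (-(p.leadingCoeff⁻¹ • B)) * (algebraMap ℂ (X →L[ℂ] X) w - Polynomial.aeval A p) = 1 := by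
    rw [hop, neg_mul_neg, smul_mul_smul_comm, h1, inv_mul_cancel₀ hl0, one_smul]
  have hB2 : (algebraMap ℂ (X →L[ℂ] X) w - Polynomial.aeval A p) * (-(p.leadingCoeff⁻¹ • B)) = 1 := by
    rw [hop, neg_mul_neg, smul_mul_smul_comm, h2, mul_inv_cancel₀ hl0, one_smul]
  have hres : resolvent (Polynomial.aeval A p) w = -(p.leadingCoeff⁻¹ • B) := by
    show Ring.inverse (algebraMap ℂ (X →L[ℂ] X) w - Polynomial.aeval A p) = _
    exact Ring.inverse_unit (⟨_, _, hB2, hB1⟩ : (X →L[ℂ] X)ˣ)
  rw [hres, norm_neg]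
  calc Real.posLog ‖p.leadingCoeff⁻¹ • B‖ ≤ Real.posLog (‖p.leadingCoeff‖⁻¹ * ‖B‖) := by
        refine Real.posLog_le_posLog (norm_nonneg _) ?_
        rw [norm_smul, norm_inv]
    _ ≤ Real.posLog ‖p.leadingCoeff‖⁻¹ + Real.posLog ‖B‖ := Real.posLog_mul
    _ ≤ _ := add_le_add le_rfl h3

theorem good_poly (A : X →L[ℂ] X) (hg : Good A univ) (p : Polynomial ℂ) (hp : 0 < p.degree) :
    Good (Polynomial.aeval A p) univ := by
  classical
  have hspec : spectrum ℂ (Polynomial.aeval A p) = (fun z => p.eval z) '' spectrum ℂ A :=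
    spectrum.map_polynomial_aeval_of_degree_pos A p hp
  have hnull0 : volume ((fun z => p.eval z) '' spectrum ℂ A) = 0 := by
    refine addHaar_image_eq_zero_of_differentiableOn_of_addHaar_eq_zero volume ?_ ?_
    · have h1 : Differentiable ℂ (fun z => p.eval z) := p.differentiable
      exact (h1.restrictScalars ℝ).differentiableOn
    · have := hg.1
      rwa [inter_univ] at this
  obtain ⟨wp, hwp⟩ : ∃ wp : Polynomial ℂ, wp = Pool.Agent.H792R2.CE.wr p 1 := ⟨_, rfl⟩
  have hwd : wp = Polynomial.derivative p := by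
    rw [hwp]
    simp [Pool.Agent.H792R2.CE.wr]
  have hwne : wp ≠ 0 := by
    rw [hwd]
    intro h0
    have h1 := Polynomial.derivative_eq_zero.1 h0
    have h2 : 0 < p.natDegree := Polynomial.natDegree_pos_iff_degree_pos.2 hp
    omega
  obtain ⟨g, hgd⟩ : ∃ g : ℂ → ℝ≥0∞, g = fun z => ENNReal.ofReal (Real.posLog ‖resolvent A z‖) :=
    ⟨_, rfl⟩
  have hgm : Measurable g := by
    rw [hgd]
    have hmeas : StronglyMeasurable (fun z : ℂ => resolvent A z) :=
      Pool.Agent.W610.HY.Fin.hMEAS (X →L[ℂ] X) A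
    exact (Real.continuous_posLog.measurable.comp hmeas.norm.measurable).ennreal_ofReal
  have hgint : ∫⁻ z, g z ≠ ⊤ := by
    have h1 := hg.2.2
    rw [Measure.restrict_univ] at h1
    refine ne_of_lt (lt_of_le_of_lt (lintegral_mono fun z => ?_) h1)
    rw [hgd, Real.enorm_of_nonneg Real.posLog_nonneg]
  obtain ⟨u, hu⟩ : ∃ u : ℂ → ℝ≥0∞, u = fun z => ‖(wp.eval z) ^ 2‖ₑ * g z := ⟨_, rfl⟩
  have hum : Measurable u := by
    rw [hu]
    have h1 : Continuous fun z => (wp.eval z) ^ 2 := by fun_prop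
    exact h1.measurable.enorm.mul hgm
  refine good_of_balls _ isOpen_univ fun N => ?_
  rw [univ_inter]
  refine ⟨measure_mono_null inter_subset_left (by rw [hspec]; exact hnull0), ?_⟩
  have hmeas : StronglyMeasurable (fun z : ℂ => resolvent (Polynomial.aeval A p) z) :=
    Pool.Agent.W610.HY.Fin.hMEAS (X →L[ℂ] X) _
  refine ⟨(Real.continuous_posLog.measurable.comp hmeas.norm.measurable).aestronglyMeasurable, ?_⟩
  -- the preimage of the ball is bounded
  obtain ⟨R, hR⟩ : ∃ R : ℝ, ∀ z : ℂ, R ≤ ‖z‖ → (N : ℝ) ≤ ‖p.eval z‖ := by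
    have h1 : Tendsto (fun z : ℂ => ‖p.eval z‖) (Bornology.cobounded ℂ) atTop :=
      p.tendsto_norm_atTop hp tendsto_norm_cobounded_atTop
    have h2 := h1.eventually (eventually_ge_atTop (N : ℝ))
    obtain ⟨R, -, hR⟩ := (hasBasis_cobounded_norm.eventually_iff).1 h2
    exact ⟨R, fun z hz => hR hz⟩
  obtain ⟨C, hC⟩ := (isCompact_closedBall (0:ℂ) R).exists_bound_of_continuousOn
    (f := fun z => (wp.eval z) ^ 2) (by fun_prop)
  have harea := Pool.Agent.H792R2.CE.D4_area (P := p) (Q := 1) isCoprime_one_right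
    (by rw [← hwp]; exact hwne) hum (A := ball (0:ℂ) (N : ℝ)) measurableSet_ball
  have hu_int : ∫⁻ w in Pool.Agent.H792R2.CE.rf p 1 ⁻¹' ball (0:ℂ) (N : ℝ), u w ≠ ⊤ := by
    have hms : MeasurableSet (Pool.Agent.H792R2.CE.rf p 1 ⁻¹' ball (0:ℂ) (N : ℝ)) := by
      have h1 : Pool.Agent.H792R2.CE.rf p 1 = fun z => p.eval z := by
        funext z
        simp [Pool.Agent.H792R2.CE.rf]
      rw [h1]
      exact p.continuous.measurable measurableSet_ball
    refine ne_top_of_le_ne_top (b := ENNReal.ofReal C * ∫⁻ z, g z)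
      (ENNReal.mul_ne_top ENNReal.ofReal_ne_top hgint) ?_
    rw [← lintegral_const_mul' _ _ ENNReal.ofReal_ne_top]
    refine (setLIntegral_mono' hms fun z hz => ?_).trans (setLIntegral_le_lintegral _ _)
    rw [hu]
    refine mul_le_mul_left ?_ _
    have hz' : ‖p.eval z‖ < N := by
      have h1 : Pool.Agent.H792R2.CE.rf p 1 z ∈ ball (0:ℂ) (N : ℝ) := hz
      rw [mem_ball_zero_iff] at h1
      simpa [Pool.Agent.H792R2.CE.rf] using h1
    have hzR : z ∈ closedBall (0:ℂ) R := by
      rw [mem_closedBall_zero_iff]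
      by_contra hcon
      have := hR z (not_le.1 hcon).le
      linarith
    rw [← ofReal_norm]
    exact ENNReal.ofReal_le_ofReal (hC z hzR)
  -- critical values
  have hcrit : volume ((fun z => p.eval z) '' {z | wp.eval z = 0}) = 0 := by
    refine Set.Finite.measure_zero ?_ _
    refine Set.Finite.image _ ?_
    refine (wp.roots.toFinset.finite_toSet).subset fun z hz => ?_
    have h1 : z ∈ wp.roots := (Polynomial.mem_roots hwne).2 hz
    simpa using h1
  obtain ⟨n, hn⟩ : ∃ n : ℕ, n = p.natDegree := ⟨_, rfl⟩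
  have hae : ∀ᵐ w ∂((volume : Measure ℂ).restrict (ball (0:ℂ) (N : ℝ))),
      ‖Real.posLog ‖resolvent (Polynomial.aeval A p) w‖‖ₑ ≤
      ENNReal.ofReal (Real.posLog ‖p.leadingCoeff‖⁻¹) +
        n * ∑ z ∈ (p - Polynomial.C w * 1).roots.toFinset,
          ‖(1 : Polynomial ℂ).eval z ^ 4 / (Pool.Agent.H792R2.CE.wr p 1).eval z ^ 2‖ₑ * u z := by
    refine ae_restrict_of_ae ?_
    filter_upwards [measure_eq_zero_iff_ae_notMem.1 hnull0,
      measure_eq_zero_iff_ae_notMem.1 hcrit] with w hw1 hw2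
    rw [Real.enorm_of_nonneg Real.posLog_nonneg]
    refine (ENNReal.ofReal_le_ofReal (res_poly A p hp w hw1)).trans ?_
    refine ENNReal.ofReal_add_le.trans (add_le_add le_rfl ?_)
    rw [mul_one, Finset.sum_multiset_map_count, Finset.mul_sum,
      ENNReal.ofReal_sum_of_nonneg fun z _ => by
        rw [nsmul_eq_mul]; exact mul_nonneg (Nat.cast_nonneg _) Real.posLog_nonneg]
    refine Finset.sum_le_sum fun z hz => ?_
    have hz1 : z ∈ (p - Polynomial.C w).roots := by simpa using hz
    have hne : p - Polynomial.C w ≠ 0 := by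
      intro h0
      rw [h0, Polynomial.roots_zero] at hz1
      simp at hz1
    have hz2 : p.eval z = w := by
      have h1 := (Polynomial.mem_roots hne).1 hz1
      rw [Polynomial.IsRoot.def, Polynomial.eval_sub, Polynomial.eval_C, sub_eq_zero] at h1
      exact h1
    have hz3 : wp.eval z ≠ 0 := fun h0 => hw2 ⟨z, h0, hz2⟩
    have hterm : ‖(1 : Polynomial ℂ).eval z ^ 4 / (Pool.Agent.H792R2.CE.wr p 1).eval z ^ 2‖ₑ * u z =
        g z := by
      rw [← hwp, hu, Polynomial.eval_one, one_pow]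
      show ‖1 / (wp.eval z) ^ 2‖ₑ * (‖(wp.eval z) ^ 2‖ₑ * g z) = g z
      rw [← mul_assoc, ← enorm_mul, one_div, inv_mul_cancel₀ (pow_ne_zero 2 hz3), enorm_one, one_mul]
    rw [hterm, nsmul_eq_mul, ENNReal.ofReal_mul (Nat.cast_nonneg _), ENNReal.ofReal_natCast, hgd]
    refine mul_le_mul_left ?_ _
    have h4 : (p - Polynomial.C w).roots.count z ≤ n := by
      refine (Multiset.count_le_card _ _).trans ?_
      refine (Polynomial.card_roots' _).trans ?_
      rw [hn]
      exact (Polynomial.natDegree_sub_C (a := w) (p := p)).le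
    exact_mod_cast h4
  refine (lintegral_mono_ae hae).trans_lt ?_
  rw [lintegral_add_left measurable_const, lintegral_const_mul' _ _ (ENNReal.natCast_ne_top n)]
  refine ENNReal.add_lt_top.2 ⟨?_, ENNReal.mul_lt_top (ENNReal.natCast_ne_top n).lt_top
    (lt_of_le_of_lt harea hu_int.lt_top)⟩
  rw [lintegral_const, Measure.restrict_apply_univ]
  exact ENNReal.mul_lt_top ENNReal.ofReal_lt_top measure_ball_lt_top

/-- all polynomials of a good operator with infinite spectrum -/
theorem hyper_poly (A : X →L[ℂ] X) (hg : Good A univ) (hinf : (spectrum ℂ A).Infinite)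
    (p : Polynomial ℂ) (hp : 0 < p.degree) : HasHyper (Polynomial.aeval A p) := by
  have hspec : spectrum ℂ (Polynomial.aeval A p) = (fun z => p.eval z) '' spectrum ℂ A :=
    spectrum.map_polynomial_aeval_of_degree_pos A p hp
  have hnt : (spectrum ℂ (Polynomial.aeval A p)).Nontrivial := by
    by_contra hcon
    rw [not_nontrivial_iff] at hcon
    obtain ⟨z₀, hz₀⟩ := hinf.nonempty
    apply hinf
    have hne : p - Polynomial.C (p.eval z₀) ≠ 0 := by
      intro h0
      rw [sub_eq_zero] at h0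
      rw [h0] at hp
      exact absurd Polynomial.degree_C_le (not_le.2 hp)
    refine ((p - Polynomial.C (p.eval z₀)).roots.toFinset.finite_toSet).subset fun z hz => ?_
    have h1 : p.eval z = p.eval z₀ := hcon (by rw [hspec]; exact ⟨z, hz, rfl⟩)
      (by rw [hspec]; exact ⟨z₀, hz₀, rfl⟩)
    have h2 : z ∈ (p - Polynomial.C (p.eval z₀)).roots := by
      rw [Polynomial.mem_roots hne, Polynomial.IsRoot.def, Polynomial.eval_sub, Polynomial.eval_C,
        h1, sub_self]
    simpa using h2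
  obtain ⟨c₁, h1, c₂, h2, h3⟩ := hnt
  exact hyper_of_good isOpen_univ (good_poly A hg p hp) h1 (mem_univ _) h2 h3.symm

end Pool.Agent.H23HF
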