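import Pool.Agent.R276.CP.Pot
import Pool.Agent.H701R2.FolF

/-!
# The logarithmic potential of a bounded holomorphic function with value one at the centre
-/

set_option autoImplicit false

namespace Pool.Agent.H23HF

open MeasureTheory Set Metric Filter Topology
open scoped ENNReal NNReal
open Pool.Agent.R276.CP Pool.Agent.R276.CP.Pot

theorem nonneg_of_one_le_exp {M : ℝ} (h : 1 ≤ Real.exp M) : 0 ≤ M := by
  rw [← Real.exp_zero] at h
  exact Real.exp_le_exp.1 h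

/-- division by the zeros in the disc of radius `2 r` -/
theorem divide {r : ℝ} (hr : 0 < r) {O : Set ℂ} (hO : IsOpen O) (hOb : closedBall (0:ℂ) (6 * r) ⊆ O) :
    ∀ (N : ℕ) (f : ℂ → ℂ) (M : ℝ), M < N * Real.log 2 → DifferentiableOn ℂ f O → f 0 = 1 →
      (∀ z : ℂ, ‖z‖ ≤ 6 * r → ‖f z‖ ≤ Real.exp M) →
      ∃ (S : Multiset ℂ) (h : ℂ → ℂ), (∀ ρ ∈ S, ρ ≠ 0 ∧ ‖ρ‖ ≤ 2 * r) ∧
        (Multiset.card S : ℝ) * Real.log 2 ≤ M ∧ DifferentiableOn ℂ h O ∧ h 0 = 1 ∧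
        (∀ z ∈ O, f z = P S z * h z) ∧ (∀ z : ℂ, ‖z‖ ≤ 6 * r → ‖h z‖ ≤ Real.exp M) ∧
        (∀ z : ℂ, ‖z‖ ≤ 2 * r → h z ≠ 0) := by
  intro N
  induction N with
  | zero =>
    intro f M hM hd h0 hb
    exfalso
    have h1 := hb 0 (by rw [norm_zero]; positivity)
    rw [h0, norm_one] at h1
    have h2 : (0:ℝ) ≤ M := nonneg_of_one_le_exp h1
    simp at hM
    linarith
  | succ N ih =>
    intro f M hM hd h0 hb
    have hM0 : (0:ℝ) ≤ M := by
      have h1 := hb 0 (by rw [norm_zero]; positivity)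
      rw [h0, norm_one] at h1
      exact nonneg_of_one_le_exp h1
    by_cases hz : ∃ ρ : ℂ, ‖ρ‖ ≤ 2 * r ∧ f ρ = 0
    swap
    · push Not at hz
      refine ⟨0, f, by simp, by simpa using hM0, hd, h0, fun z _ => by simp [P], hb, hz⟩
    obtain ⟨ρ, hρ, hfρ⟩ := hz
    have hρ0 : ρ ≠ 0 := by
      rintro rfl
      rw [h0] at hfρ
      exact one_ne_zero hfρ
    have hρO : ρ ∈ O := hOb (by rw [mem_closedBall_zero_iff]; linarith)
    obtain ⟨f₁, hf₁⟩ : ∃ f₁ : ℂ → ℂ, f₁ = fun z => -ρ * dslope f ρ z := ⟨_, rfl⟩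
    have hd₁ : DifferentiableOn ℂ f₁ O := by
      rw [hf₁]
      exact ((Complex.differentiableOn_dslope (hO.mem_nhds hρO)).2 hd).const_mul _
    have hfac : ∀ z, f z = (1 - z / ρ) * f₁ z := by
      intro z
      have h1 : (z - ρ) • dslope f ρ z = f z - f ρ := sub_smul_dslope f ρ z
      rw [hfρ, sub_zero, smul_eq_mul] at h1
      rw [← h1, hf₁]
      field_simp
      ring
    have h01 : f₁ 0 = 1 := by
      have := hfac 0
      rw [h0] at this
      simpa using this.symm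
    have hexp : Real.exp (M - Real.log 2) = Real.exp M / 2 := by
      rw [Real.exp_sub, Real.exp_log (by norm_num)]
    have hfr : ∀ z ∈ frontier (ball (0:ℂ) (6 * r)), ‖f₁ z‖ ≤ Real.exp (M - Real.log 2) := by
      intro z hz
      rw [frontier_ball (0:ℂ) (by positivity), mem_sphere_zero_iff_norm] at hz
      have h1 := hb z hz.le
      rw [hfac z, norm_mul] at h1
      have hρ1 : 0 < ‖ρ‖ := norm_pos_iff.2 hρ0
      have h2 : 2 ≤ ‖1 - z / ρ‖ := by
        have h2 : ‖z / ρ‖ - ‖(1:ℂ)‖ ≤ ‖1 - z / ρ‖ := by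
          rw [norm_sub_rev]; exact norm_sub_norm_le _ _
        have h3 : 3 ≤ ‖z / ρ‖ := by
          rw [norm_div, le_div_iff₀ hρ1, hz]; linarith
        rw [norm_one] at h2
        linarith
      rw [hexp]
      have h4 : 2 * ‖f₁ z‖ ≤ ‖1 - z / ρ‖ * ‖f₁ z‖ := mul_le_mul_of_nonneg_right h2 (norm_nonneg _)
      linarith
    have hb₁ : ∀ z : ℂ, ‖z‖ ≤ 6 * r → ‖f₁ z‖ ≤ Real.exp (M - Real.log 2) := by
      intro z hz
      have hcl : closure (ball (0:ℂ) (6 * r)) = closedBall 0 (6 * r) :=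
        closure_ball (0:ℂ) (by positivity)
      apply Complex.norm_le_of_forall_mem_frontier_norm_le (U := ball (0:ℂ) (6 * r)) isBounded_ball
        _ hfr
      · rw [hcl]
        exact mem_closedBall_zero_iff.2 hz
      · apply DifferentiableOn.diffContOnCl
        rw [hcl]
        exact hd₁.mono hOb
    obtain ⟨S, h, hS, hcard, hhd, hh0, hh1, hh2, hh3⟩ := ih f₁ (M - Real.log 2) (by
      push_cast at hM
      linarith) hd₁ h01 hb₁
    have hl2 : 0 < Real.log 2 := Real.log_pos (by norm_num)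
    refine ⟨ρ ::ₘ S, h, ?_, ?_, hhd, hh0, ?_, ?_, hh3⟩
    · intro a ha
      rcases Multiset.mem_cons.1 ha with rfl | ha
      · exact ⟨hρ0, hρ⟩
      · exact hS a ha
    · rw [Multiset.card_cons]
      push_cast
      linarith
    · intro z hz
      rw [P_cons, hfac z, hh1 z hz]
      ring
    · intro z hz
      refine (hh2 z hz).trans (Real.exp_le_exp.2 (by linarith))

theorem keyh {r : ℝ} (hr : 0 < r) {O : Set ℂ} (hO : IsOpen O) (hOb : closedBall (0:ℂ) (6 * r) ⊆ O)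
    (f : ℂ → ℂ) (M : ℝ) (hd : DifferentiableOn ℂ f O) (h0 : f 0 = 1)
    (hb : ∀ z : ℂ, ‖z‖ ≤ 6 * r → ‖f z‖ ≤ Real.exp M) :
    ∃ (S : Multiset ℂ) (h : ℂ → ℂ), (∀ ρ ∈ S, ρ ≠ 0 ∧ ‖ρ‖ ≤ 2 * r) ∧
      (Multiset.card S : ℝ) * Real.log 2 ≤ M ∧ DifferentiableOn ℂ h O ∧
      (∀ z ∈ O, f z = P S z * h z) ∧ (∀ z : ℂ, ‖z‖ ≤ 2 * r → h z ≠ 0) ∧ ∀ κ : ℂ, ‖κ‖ < r →
      lm ‖f κ‖ ≤ ENNReal.ofReal (2 * (M + 1)) +
        (S.map (fun ρ => ENNReal.ofReal (Real.posLog (2 * r)) + lm ‖κ - ρ‖)).sum := by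
  obtain ⟨N, hN⟩ : ∃ N : ℕ, M < N * Real.log 2 := by
    have hl2 : 0 < Real.log 2 := Real.log_pos (by norm_num)
    obtain ⟨N, hN⟩ := exists_nat_gt (M / Real.log 2)
    exact ⟨N, (div_lt_iff₀ hl2).1 hN⟩
  have hM : (0:ℝ) ≤ M := by
    have h1 := hb 0 (by rw [norm_zero]; positivity)
    rw [h0, norm_one] at h1
    exact nonneg_of_one_le_exp h1
  obtain ⟨S, h, hS, hcard, hhd, hh0, hh1, hh2, hh3⟩ := divide hr hO hOb N f M hN hd h0 hb
  refine ⟨S, h, hS, hcard, hhd, hh1, hh3, ?_⟩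
  have hsub : ball (0:ℂ) (2 * r) ⊆ O := by
    refine (ball_subset_closedBall.trans (closedBall_subset_closedBall ?_)).trans hOb
    linarith
  obtain ⟨g₀, hg₀d, hg₀e⟩ := Pool.Agent.H701R2.Fol.exists_log_ball (c := 0) (r := 2 * r)
    (hhd.mono hsub) (fun z hz => hh3 z (mem_ball_zero_iff.1 hz).le)
  obtain ⟨g, hg⟩ : ∃ g : ℂ → ℂ, g = fun z => g₀ z - g₀ 0 := ⟨_, rfl⟩
  have hgd : DifferentiableOn ℂ g (ball 0 (2 * r)) := by
    rw [hg]
    exact hg₀d.sub_const _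
  have hexp : ∀ κ : ℂ, ‖κ‖ < 2 * r → Complex.exp (g κ) = h κ := by
    intro κ hκ
    rw [hg]
    simp only
    rw [Complex.exp_sub, hg₀e κ (mem_ball_zero_iff.2 hκ),
      hg₀e 0 (mem_ball_self (by positivity)), hh0, div_one]
  have hgre : Set.MapsTo g (ball 0 (2 * r)) {z | z.re ≤ M + 1} := by
    intro κ hκ
    rw [mem_ball_zero_iff] at hκ
    have h3 := hh2 κ (by linarith)
    rw [← hexp κ hκ, Complex.norm_exp] at h3
    have h5 : (g κ).re ≤ M := Real.exp_le_exp.1 h3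
    show (g κ).re ≤ M + 1
    linarith
  have hg0 : g 0 = 0 := by
    rw [hg]; simp
  intro κ hκ
  have hκ2 : ‖κ‖ < 2 * r := by linarith
  have hbc := Complex.borelCaratheodory_zero (f := g) (M := M + 1) (R := 2 * r) (by linarith)
    hgd hgre (by linarith) (mem_ball_zero_iff.2 hκ2) hg0
  have hg1 : ‖g κ‖ ≤ 2 * (M + 1) := by
    refine hbc.trans ?_
    rw [div_le_iff₀ (by linarith)]
    have : ‖κ‖ ≤ 2 * r - ‖κ‖ := by linarith
    exact mul_le_mul_of_nonneg_left this (by linarith)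
  have hlow : lm ‖h κ‖ ≤ ENNReal.ofReal (2 * (M + 1)) := by
    have hne : h κ ≠ 0 := by rw [← hexp κ hκ2]; exact Complex.exp_ne_zero _
    apply lm_le_of_exp (norm_pos_iff.2 hne) (by linarith)
    rw [← hexp κ hκ2, Complex.norm_exp, ← Real.exp_neg]
    apply Real.exp_le_exp.2
    have := (abs_le.1 ((Complex.abs_re_le_norm (g κ)).trans hg1)).1
    linarith
  rw [hh1 κ (hsub (mem_ball_zero_iff.2 hκ2)), norm_mul]
  refine (lm_mul _ _).trans ?_
  rw [add_comm]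
  exact add_le_add hlow (P_lm S hS κ)

theorem key {r : ℝ} (hr : 0 < r) {O : Set ℂ} (hO : IsOpen O) (hOb : closedBall (0:ℂ) (6 * r) ⊆ O)
    (f : ℂ → ℂ) (M : ℝ) (hd : DifferentiableOn ℂ f O) (h0 : f 0 = 1)
    (hb : ∀ z : ℂ, ‖z‖ ≤ 6 * r → ‖f z‖ ≤ Real.exp M) :
    ∃ S : Multiset ℂ, (Multiset.card S : ℝ) * Real.log 2 ≤ M ∧ ∀ κ : ℂ, ‖κ‖ < r →
      lm ‖f κ‖ ≤ ENNReal.ofReal (2 * (M + 1)) +
        (S.map (fun ρ => ENNReal.ofReal (Real.posLog (2 * r)) + lm ‖κ - ρ‖)).sum := by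
  obtain ⟨S, h, -, h1, -, -, -, h2⟩ := keyh hr hO hOb f M hd h0 hb
  exact ⟨S, h1, h2⟩

/-- the factorization with any centre -/
theorem keyc (c : ℂ) {r : ℝ} (hr : 0 < r) {O : Set ℂ} (hO : IsOpen O)
    (hOb : closedBall c (6 * r) ⊆ O) (f : ℂ → ℂ) (M : ℝ) (hd : DifferentiableOn ℂ f O)
    (h0 : f c = 1) (hb : ∀ z : ℂ, ‖z - c‖ ≤ 6 * r → ‖f z‖ ≤ Real.exp M) :
    ∃ (S : Multiset ℂ) (h : ℂ → ℂ), (Multiset.card S : ℝ) * Real.log 2 ≤ M ∧
      AnalyticOnNhd ℂ h (closedBall c (2 * r)) ∧ (∀ z ∈ closedBall c (2 * r), h z ≠ 0) ∧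
      (∀ z ∈ closedBall c (2 * r), f z = (S.map (fun ρ => z - ρ)).prod * h z) ∧
      ∀ κ ∈ ball c r, lm ‖f κ‖ ≤ ENNReal.ofReal (2 * (M + 1)) +
        (S.map (fun ρ => ENNReal.ofReal (Real.posLog (2 * r)) + lm ‖κ - ρ‖)).sum := by
  obtain ⟨O', hO'⟩ : ∃ O' : Set ℂ, O' = (fun w => c + w) ⁻¹' O := ⟨_, rfl⟩
  have hO'o : IsOpen O' := by
    rw [hO']
    exact hO.preimage (by fun_prop)
  have hO'b : closedBall (0:ℂ) (6 * r) ⊆ O' := by
    intro w hw
    rw [hO']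
    apply hOb
    rw [mem_closedBall, dist_eq_norm, add_sub_cancel_left]
    exact mem_closedBall_zero_iff.1 hw
  have hb' : ∀ z : ℂ, ‖z‖ ≤ 6 * r → ‖f (c + z)‖ ≤ Real.exp M := fun z hz => hb (c + z) (by
    rw [add_sub_cancel_left]; exact hz)
  have hd' : DifferentiableOn ℂ (fun w => f (c + w)) O' := by
    rw [hO']
    exact hd.comp (by fun_prop) (fun w hw => hw)
  obtain ⟨S₀, h₀, s1, s2, s3, s4, s5, s6⟩ := keyh hr hO'o hO'b (fun w => f (c + w)) M hd'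
    (by simpa using h0) hb'
  obtain ⟨a, ha⟩ : ∃ a : ℂ, a = (S₀.map (fun ρ => -1 / ρ)).prod := ⟨_, rfl⟩
  have ha0 : a ≠ 0 := by
    rw [ha, Ne, Multiset.prod_eq_zero_iff, Multiset.mem_map]
    rintro ⟨ρ, h1, h2⟩
    exact (div_ne_zero (by norm_num) (s1 ρ h1).1) h2
  have hcl : ∀ z ∈ closedBall c (2 * r), ‖z - c‖ ≤ 2 * r := fun z hz => by
    rwa [mem_closedBall, dist_eq_norm] at hz
  have hclO : ∀ z ∈ closedBall c (2 * r), z - c ∈ O' := fun z hz => hO'b (by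
    rw [mem_closedBall_zero_iff]
    have := hcl z hz
    linarith)
  refine ⟨S₀.map (fun ρ => c + ρ), fun z => a * h₀ (z - c), ?_, ?_, ?_, ?_, ?_⟩
  · rwa [Multiset.card_map]
  · intro z hz
    have h1 : AnalyticAt ℂ h₀ (z - c) := s3.analyticAt (hO'o.mem_nhds (hclO z hz))
    have h2 : AnalyticAt ℂ (fun z => z - c) z := by fun_prop
    exact analyticAt_const.mul (AnalyticAt.fun_comp h1 h2)
  · intro z hz
    exact mul_ne_zero ha0 (s5 _ (hcl z hz))
  · intro z hz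
    have h1 := s4 (z - c) (hclO z hz)
    simp only [add_sub_cancel] at h1
    rw [h1, ← mul_assoc, Multiset.map_map]
    congr 1
    rw [ha, ← Multiset.prod_map_mul]
    unfold P
    congr 1
    apply Multiset.map_congr rfl
    intro ρ hρ
    have h2 := (s1 ρ hρ).1
    simp only [Function.comp]
    field_simp
    ring
  · intro κ hκ
    have h1 := s6 (κ - c) (by rw [mem_ball, dist_eq_norm] at hκ; exact hκ)
    simp only [add_sub_cancel] at h1
    rw [Multiset.map_map]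
    refine h1.trans (le_of_eq ?_)
    congr 2
    apply Multiset.map_congr rfl
    intro ρ _
    simp only [Function.comp]
    rw [sub_sub]

/-- the integral of `log⁺ (1 / |f|)` -/
theorem pot (m : Measure ℂ) (hm : LogBd m) (c : ℂ) {r : ℝ} (hr : 0 < r) : ∃ C : ℝ≥0,
    ∀ {O : Set ℂ}, IsOpen O → closedBall c (6 * r) ⊆ O → ∀ (f : ℂ → ℂ) (M : ℝ),
    DifferentiableOn ℂ f O → f c = 1 → (∀ z : ℂ, ‖z - c‖ ≤ 6 * r → ‖f z‖ ≤ Real.exp M) →
    ∫⁻ κ in ball c r, lm ‖f κ‖ ∂m ≤ C * ENNReal.ofReal (M + 1) := by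
  obtain ⟨C0, hmass, hpot⟩ := hm (‖c‖ + r)
  have hincl : ball c r ⊆ ball 0 (‖c‖ + r) := by
    intro x hx
    rw [mem_ball, dist_eq_norm] at hx
    rw [mem_ball_zero_iff]
    have h1 := norm_add_le (x - c) c
    rw [sub_add_cancel] at h1
    linarith
  set pl : ℝ≥0 := Real.toNNReal (Real.posLog (2 * r)) with hpl
  refine ⟨2 * C0 + 2 * (pl * C0 + C0), ?_⟩
  intro O hO hOb f M hd h0 hb
  obtain ⟨O', hO'⟩ : ∃ O' : Set ℂ, O' = (fun w => c + w) ⁻¹' O := ⟨_, rfl⟩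
  have hO'o : IsOpen O' := by
    rw [hO']
    exact hO.preimage (by fun_prop)
  have hO'b : closedBall (0:ℂ) (6 * r) ⊆ O' := by
    intro w hw
    rw [hO']
    apply hOb
    rw [mem_closedBall, dist_eq_norm, add_sub_cancel_left]
    exact mem_closedBall_zero_iff.1 hw
  have hb' : ∀ z : ℂ, ‖z‖ ≤ 6 * r → ‖f (c + z)‖ ≤ Real.exp M := fun z hz => hb (c + z) (by
    rw [add_sub_cancel_left]; exact hz)
  have hd' : DifferentiableOn ℂ (fun w => f (c + w)) O' := by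
    rw [hO']
    exact hd.comp (by fun_prop) (fun w hw => hw)
  have hM : (0:ℝ) ≤ M := by
    have h1 := hb' 0 (by rw [norm_zero]; positivity)
    rw [add_zero, h0, norm_one] at h1
    exact nonneg_of_one_le_exp h1
  obtain ⟨S, hcard, hS⟩ := key hr hO'o hO'b (fun w => f (c + w)) M hd' (by simpa using h0) hb'
  have hk : (Multiset.card S : ℝ≥0∞) ≤ ENNReal.ofReal (2 * (M + 1)) := by
    rw [← ENNReal.ofReal_natCast]
    apply ENNReal.ofReal_le_ofReal
    have hl : (1:ℝ)/2 ≤ Real.log 2 := by linarith [Real.log_two_gt_d9]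
    have h0 : (0:ℝ) ≤ (Multiset.card S : ℝ) := Nat.cast_nonneg _
    nlinarith
  have hofpl : ENNReal.ofReal (Real.posLog (2 * r)) = (pl : ℝ≥0∞) := rfl
  have hS' : ∀ κ ∈ ball c r, lm ‖f κ‖ ≤ ENNReal.ofReal (2 * (M + 1)) +
      ((S.map (fun ρ => c + ρ)).map (fun ρ => (pl : ℝ≥0∞) + lm ‖κ - ρ‖)).sum := by
    intro κ hκ
    have h1 := hS (κ - c) (by rw [mem_ball, dist_eq_norm] at hκ; exact hκ)
    simp only [add_sub_cancel] at h1
    rw [Multiset.map_map]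
    refine h1.trans (le_of_eq ?_)
    congr 2
    apply Multiset.map_congr rfl
    intro ρ _
    simp only [Function.comp]
    rw [hofpl, sub_sub]
  calc ∫⁻ κ in ball c r, lm ‖f κ‖ ∂m
      ≤ ∫⁻ κ in ball c r, (ENNReal.ofReal (2 * (M + 1)) +
        ((S.map (fun ρ => c + ρ)).map (fun ρ => (pl : ℝ≥0∞) + lm ‖κ - ρ‖)).sum) ∂m := by
        apply setLIntegral_mono_ae' measurableSet_ball
        filter_upwards with κ hκ
        exact hS' κ hκ
    _ = ENNReal.ofReal (2 * (M + 1)) * m (ball c r) +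
        ∫⁻ κ in ball c r, ((S.map (fun ρ => c + ρ)).map (fun ρ => (pl : ℝ≥0∞) + lm ‖κ - ρ‖)).sum ∂m := by
        rw [lintegral_add_left measurable_const, lintegral_const, Measure.restrict_apply_univ]
    _ ≤ ENNReal.ofReal (2 * (M + 1)) * C0 +
        (Multiset.card S : ℝ≥0∞) * ((pl : ℝ≥0∞) * C0 + C0) := by
        refine add_le_add (mul_le_mul_right ((measure_mono hincl).trans hmass) _) ?_
        refine (lintegral_mono' (Measure.restrict_mono_set _ hincl) le_rfl).trans ?_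
        have h2 := int_sum m hmass hpot pl (S.map (fun ρ => c + ρ))
        rw [Multiset.card_map] at h2
        exact h2
    _ ≤ ENNReal.ofReal (2 * (M + 1)) * C0 +
        ENNReal.ofReal (2 * (M + 1)) * ((pl : ℝ≥0∞) * C0 + C0) := by gcongr
    _ = ((2 * C0 + 2 * (pl * C0 + C0) : ℝ≥0) : ℝ≥0∞) * ENNReal.ofReal (M + 1) := by
        rw [ENNReal.ofReal_mul (by norm_num), ENNReal.ofReal_ofNat]
        push_cast
        ring

end Pool.Agent.H23HF
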