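import Pool.Agent.H23HF.Meas

/-!
# Several parameters
-/

set_option autoImplicit false

namespace Pool.Agent.H23HF

open MeasureTheory Set Metric Filter Topology
open scoped ENNReal NNReal
open Pool.Agent.R276.CP

variable {X : Type} [NormedAddCommGroup X] [NormedSpace ℂ X] [CompleteSpace X]
variable {E : Type} [NormedAddCommGroup E] [NormedSpace ℂ E] [FiniteDimensional ℂ E]
  [MeasurableSpace E] [BorelSpace E]

theorem real_logBd : LogBd (Measure.map (fun t : ℝ => (t : ℂ)) volume) :=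
  Pool.Agent.Y891.NK.main_vol.2

omit [FiniteDimensional ℂ E] [MeasurableSpace E] [BorelSpace E] in
/-- the complex line through the points `c` and `κ` of a ball -/
theorem line {T : E → X →L[ℂ] X} {Ω : Set E} (hT : DifferentiableOn ℂ T Ω)
    (hfin : ∀ κ ∈ Ω, ∀ κ' ∈ Ω,
      FiniteDimensional ℂ (LinearMap.range ((T κ - T κ' : X →L[ℂ] X) : X →ₗ[ℂ] X)))
    {U : Set ℂ} (hU : IsOpen U) {x : E} {R : ℝ} (hB : ball x R ⊆ Ω) {c κ : E}
    (hc : c ∈ ball x R) (hg : Good (T c) U) (hκ : κ ∈ ball x R) :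
    ∀ᵐ t : ℝ, t ∈ Ioo (0:ℝ) 1 → Good (T (c + (t : ℂ) • (κ - c))) U := by
  obtain ⟨φ, hφ⟩ : ∃ φ : ℂ → E, φ = fun t => c + t • (κ - c) := ⟨_, rfl⟩
  have hφd : Differentiable ℂ φ := by
    rw [hφ]
    fun_prop
  obtain ⟨O, hO⟩ : ∃ O : Set ℂ, O = φ ⁻¹' ball x R := ⟨_, rfl⟩
  have hOo : IsOpen O := by
    rw [hO]
    exact isOpen_ball.preimage hφd.continuous
  have hOc : Convex ℝ O := by
    rw [hO]
    intro t ht s hs a b ha hb hab
    have h1 := convex_ball x R ht hs ha hb hab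
    have h2 : φ (a • t + b • s) = a • φ t + b • φ s := by
      rw [hφ]
      simp only [smul_add, add_smul, smul_assoc]
      have h3 : c = a • c + b • c := by rw [← add_smul, hab, one_smul]
      nth_rewrite 1 [h3]
      abel
    show φ (a • t + b • s) ∈ ball x R
    rw [h2]
    exact h1
  have h0 : φ 0 = c := by rw [hφ]; simp
  have h0O : (0:ℂ) ∈ O := by rw [hO]; show φ 0 ∈ ball x R; rw [h0]; exact hc
  have hmaps : ∀ t ∈ O, φ t ∈ Ω := fun t ht => by rw [hO] at ht; exact hB ht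
  have h1 := main_good (T := fun t => T (φ t)) hOo hOc.isPreconnected
    (hT.comp hφd.differentiableOn hmaps) h0O
    (fun t ht => hfin _ (hmaps t ht) _ (hmaps 0 h0O)) hU (by
      show Good (T (φ 0)) U
      rw [h0]
      exact hg)
  have h2 := h1.2 _ real_logBd
  have h3 : ∀ᵐ t ∂(Measure.map (fun t : ℝ => (t : ℂ)) volume), ¬ (t ∈ O ∧ ¬ Good (T (φ t)) U) := by
    rw [ae_iff]
    simpa using h2
  have h4 := ae_of_ae_map Complex.continuous_ofReal.measurable.aemeasurable h3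
  filter_upwards [h4] with t ht ht1
  by_contra hcon
  refine ht ⟨?_, ?_⟩
  · have h1O : (1:ℂ) ∈ O := by
      rw [hO]
      show φ 1 ∈ ball x R
      rw [hφ]
      simpa using hκ
    have h5 := hOc h0O h1O (a := 1 - t) (b := t) (by linarith [ht1.2]) ht1.1.le (by ring)
    have h6 : (1 - t) • (0:ℂ) + t • (1:ℂ) = (t : ℂ) := by simp
    rwa [h6] at h5
  · rw [hφ]
    exact hcon

theorem several_local (μ : Measure E) [μ.IsAddHaarMeasure] {T : E → X →L[ℂ] X} {Ω : Set E}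
    (hΩ : IsOpen Ω) (hT : DifferentiableOn ℂ T Ω)
    (hfin : ∀ κ ∈ Ω, ∀ κ' ∈ Ω,
      FiniteDimensional ℂ (LinearMap.range ((T κ - T κ' : X →L[ℂ] X) : X →ₗ[ℂ] X)))
    {U : Set ℂ} (hU : IsOpen U) {x : E} {R : ℝ} (hB : ball x R ⊆ Ω) {c : E}
    (hc : c ∈ ball x R) (hg : Good (T c) U) :
    μ {κ | κ ∈ ball x R ∧ ¬ Good (T κ) U} = 0 := by
  have : FiniteDimensional ℝ E := FiniteDimensional.complexToReal E
  have : SecondCountableTopology E := by
    have := FiniteDimensional.proper ℂ E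
    infer_instance
  obtain ⟨N, hN⟩ : ∃ N : Set E, N = {κ | κ ∈ ball x R ∧ ¬ Good (T κ) U} := ⟨_, rfl⟩
  have hNm : MeasurableSet N := by
    have h1 : N = ball x R \ {κ | κ ∈ Ω ∧ Good (T κ) U} := by
      rw [hN]
      ext κ
      exact ⟨fun h => ⟨h.1, fun h' => h.2 h'.2⟩, fun h => ⟨h.1, fun h' => h.2 ⟨hB h.1, h'⟩⟩⟩
    rw [h1]
    exact measurableSet_ball.diff (meas_good hΩ hT.continuousOn hU)
  rw [← hN]
  have hc2 : Continuous fun p : E × ℝ => c + (p.2 : ℂ) • (p.1 - c) := by fun_prop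
  have hm : MeasurableSet {p : E × ℝ | ¬ (p.1 ∈ ball x R ∧ p.2 ∈ Ioo (0:ℝ) 1 ∧
      c + (p.2 : ℂ) • (p.1 - c) ∈ N)} := by
    refine MeasurableSet.compl ?_
    exact (measurable_fst measurableSet_ball).inter
      ((measurable_snd measurableSet_Ioo).inter (hc2.measurable hNm))
  have h1 : ∀ᵐ κ ∂μ, ∀ᵐ t : ℝ, ¬ (κ ∈ ball x R ∧ t ∈ Ioo (0:ℝ) 1 ∧
      c + (t : ℂ) • (κ - c) ∈ N) := by
    refine Eventually.of_forall fun κ => ?_
    by_cases hκ : κ ∈ ball x R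
    · filter_upwards [line hT hfin hU hB hc hg hκ] with t ht
      rintro ⟨-, h2, h3⟩
      rw [hN] at h3
      exact h3.2 (ht h2)
    · exact Eventually.of_forall fun t h => hκ h.1
  have h2 := (Measure.ae_ae_comm (μ := μ) (ν := (volume : Measure ℝ)) (p := fun κ t =>
    ¬ (κ ∈ ball x R ∧ t ∈ Ioo (0:ℝ) 1 ∧ c + (t : ℂ) • (κ - c) ∈ N)) hm).1 h1
  have h3 : ∀ j : ℕ, ∃ t ∈ Ioo (1 - 1 / ((j : ℝ) + 2)) 1, ∀ᵐ κ ∂μ,
      ¬ (κ ∈ ball x R ∧ t ∈ Ioo (0:ℝ) 1 ∧ c + (t : ℂ) • (κ - c) ∈ N) := by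
    intro j
    by_contra hcon
    have h4 : (volume : Measure ℝ) (Ioo (1 - 1 / ((j : ℝ) + 2)) 1) = 0 := by
      rw [ae_iff] at h2
      refine measure_mono_null ?_ h2
      intro t ht
      exact fun h5 => hcon ⟨t, ht, h5⟩
    rw [Real.volume_Ioo, ENNReal.ofReal_eq_zero] at h4
    have : (0:ℝ) < 1 / ((j : ℝ) + 2) := by positivity
    linarith
  choose t ht1 ht2 using h3
  have ht0 : ∀ j, 0 < t j := by
    intro j
    have h4 : (1:ℝ) / ((j : ℝ) + 2) ≤ 1 / 2 := by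
      apply one_div_le_one_div_of_le (by norm_num)
      have : (0:ℝ) ≤ j := Nat.cast_nonneg j
      linarith
    have := (ht1 j).1
    linarith
  have htlim : Tendsto t atTop (𝓝 1) := by
    have h4 : Tendsto (fun j : ℕ => 1 - 1 / ((j : ℝ) + 2)) atTop (𝓝 (1 - 0)) := by
      refine tendsto_const_nhds.sub ?_
      have h5 : Tendsto (fun j : ℕ => (j : ℝ) + 2) atTop atTop :=
        tendsto_atTop_add_const_right _ _ tendsto_natCast_atTop_atTop
      simp only [one_div]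
      exact h5.inv_tendsto_atTop
    rw [sub_zero] at h4
    exact tendsto_of_tendsto_of_tendsto_of_le_of_le h4 tendsto_const_nhds
      (fun j => (ht1 j).1.le) (fun j => (ht1 j).2.le)
  refine measure_mono_null (t := ⋃ j, AffineMap.homothety c (t j) ''
    {κ | κ ∈ ball x R ∧ t j ∈ Ioo (0:ℝ) 1 ∧ c + (t j : ℂ) • (κ - c) ∈ N}) ?_
    (measure_iUnion_null fun j => ?_)
  · intro y hy
    have hyB : y ∈ ball x R := by rw [hN] at hy; exact hy.1
    have h5 : Tendsto (fun j => c + (t j)⁻¹ • (y - c)) atTop (𝓝 (c + (1:ℝ)⁻¹ • (y - c))) :=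
      tendsto_const_nhds.add ((htlim.inv₀ one_ne_zero).smul tendsto_const_nhds)
    rw [inv_one, one_smul, add_sub_cancel] at h5
    obtain ⟨j, hj⟩ := (h5.eventually (isOpen_ball.mem_nhds hyB)).exists
    refine mem_iUnion.2 ⟨j, c + (t j)⁻¹ • (y - c), ⟨hj, ⟨ht0 j, (ht1 j).2⟩, ?_⟩, ?_⟩
    · have h6 : c + ((t j : ℝ) : ℂ) • ((c + (t j)⁻¹ • (y - c)) - c) = y := by
        rw [add_sub_cancel_left, Complex.coe_smul, smul_smul, mul_inv_cancel₀ (ht0 j).ne', one_smul,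
          add_sub_cancel]
      rw [h6]
      exact hy
    · rw [AffineMap.homothety_apply, vsub_eq_sub, vadd_eq_add, add_sub_cancel_left, smul_smul,
        mul_inv_cancel₀ (ht0 j).ne', one_smul, sub_add_cancel]
  · rw [Measure.addHaar_image_homothety]
    have h6 := ht2 j
    rw [ae_iff] at h6
    simp only [not_not] at h6
    rw [h6, mul_zero]

theorem several (μ : Measure E) [μ.IsAddHaarMeasure] {T : E → X →L[ℂ] X} {Ω : Set E}
    (hΩ : IsOpen Ω) (hc : IsPreconnected Ω) (hT : DifferentiableOn ℂ T Ω)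
    (hfin : ∀ κ ∈ Ω, ∀ κ' ∈ Ω,
      FiniteDimensional ℂ (LinearMap.range ((T κ - T κ' : X →L[ℂ] X) : X →ₗ[ℂ] X)))
    {U : Set ℂ} (hU : IsOpen U) {κ₀ : E} (hκ₀ : κ₀ ∈ Ω) (hg : Good (T κ₀) U) :
    μ {κ | κ ∈ Ω ∧ ¬ Good (T κ) U} = 0 := by
  have : SecondCountableTopology E := by
    have := FiniteDimensional.proper ℂ E
    infer_instance
  have hn : ∀ k ∈ Ω, ∃ r : ℝ, 0 < r ∧ ball k r ⊆ Ω := fun k hk => Metric.isOpen_iff.1 hΩ k hk
  choose! r hr0 hr using hn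
  obtain ⟨S, hS⟩ : ∃ S : Set E, S = {k | ∃ c ∈ ball k (r k), Good (T c) U} := ⟨_, rfl⟩
  have hstep : ∀ x ∈ Ω, ∀ y ∈ Ω, (ball x (r x) ∩ ball y (r y)).Nonempty → x ∈ S → y ∈ S := by
    intro x hx y hy hne hxS
    rw [hS] at hxS ⊢
    obtain ⟨c, hc1, hc2⟩ := hxS
    have h1 := several_local μ hΩ hT hfin hU (hr x hx) hc1 hc2
    have h3 : 0 < μ (ball x (r x) ∩ ball y (r y)) :=
      (isOpen_ball.inter isOpen_ball).measure_pos μ hne
    by_contra hcon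
    refine h3.ne' (measure_mono_null ?_ h1)
    rintro κ ⟨h4, h5⟩
    exact ⟨h4, fun h6 => hcon ⟨κ, h5, h6⟩⟩
  have hall : ∀ κ ∈ Ω, κ ∈ S := by
    intro κ hκ
    have h0 : κ₀ ∈ S := by
      rw [hS]
      exact ⟨κ₀, mem_ball_self (hr0 κ₀ hκ₀), hg⟩
    refine hc.induction₂' (fun x y => x ∈ S → y ∈ S) ?_ (fun x y z _ _ _ h1 h2 h3 => h2 (h1 h3))
      hκ₀ hκ h0
    intro x hx
    have h1 : ball x (r x) ∩ Ω ∈ 𝓝[Ω] x :=
      inter_mem (nhdsWithin_le_nhds (ball_mem_nhds x (hr0 x hx))) self_mem_nhdsWithin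
    filter_upwards [h1] with y hy
    have h2 : y ∈ ball x (r x) ∩ ball y (r y) := ⟨hy.1, mem_ball_self (hr0 y hy.2)⟩
    exact ⟨hstep x hx y hy.2 ⟨y, h2⟩, hstep y hy.2 x hx ⟨y, h2.2, h2.1⟩⟩
  refine measure_null_of_locally_null _ fun x hx => ?_
  obtain ⟨hxΩ, -⟩ := hx
  obtain ⟨c, hc1, hc2⟩ := (hS ▸ hall x hxΩ : x ∈ {k | ∃ c ∈ ball k (r k), Good (T c) U})
  have h1 := several_local μ hΩ hT hfin hU (hr x hxΩ) hc1 hc2
  refine ⟨_, inter_mem_nhdsWithin _ (ball_mem_nhds x (hr0 x hxΩ)), ?_⟩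
  refine measure_mono_null ?_ h1
  rintro y ⟨hy1, hy2⟩
  exact ⟨hy2, hy1.2⟩

end Pool.Agent.H23HF
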