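import Pool.Agent.H23HF.Dim

/-!
# The local step: dimension zero
-/

set_option autoImplicit false

namespace Pool.Agent.H23HF

open MeasureTheory Set Metric Filter Topology Matrix
open scoped ENNReal NNReal
open Pool.Agent.R276.CP Pool.Agent.R276.CP.Pot Pool.Agent.Y271.CO

variable {X : Type} [NormedAddCommGroup X] [NormedSpace ℂ X] [CompleteSpace X]

theorem locd {n : ℕ} {J : ℂ → (Fin n → ℂ) →L[ℂ] X} {F : ℂ → X →L[ℂ] (Fin n → ℂ)}
    {T : ℂ → X →L[ℂ] X} {c : ℂ} {r : ℝ} (hr : 0 < r) {O : Set ℂ} (hO : IsOpen O)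
    (hOb : closedBall c (6 * r) ⊆ O) (hJ : DifferentiableOn ℂ J O) (hF : DifferentiableOn ℂ F O)
    (hT : ∀ κ ∈ O, T κ = T c + (1:ℂ) • (J κ).comp (F κ)) (h00 : (J c).comp (F c) = 0)
    {U : Set ℂ} (hU : IsOpen U) (hUf : volume U ≠ ⊤) (hg : Good (T c) U) :
    dimH {κ | κ ∈ ball c r ∧ ¬ Good (T κ) U} = 0 := by
  classical
  obtain ⟨B, hB0, hB⟩ : ∃ B : ℝ, 0 ≤ B ∧ ∀ κ ∈ closedBall c (6 * r), ‖F κ‖ * ‖J κ‖ ≤ B := by
    have h1 : ContinuousOn (fun κ => ‖F κ‖ * ‖J κ‖) (closedBall c (6 * r)) :=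
      ((hF.continuousOn.mono hOb).norm).mul ((hJ.continuousOn.mono hOb).norm)
    obtain ⟨B, hB⟩ := (isCompact_closedBall c (6 * r)).exists_bound_of_continuousOn h1
    refine ⟨max B 0, le_max_right _ _, fun κ hκ => ?_⟩
    have h2 := hB κ hκ
    exact ((le_abs_self _).trans h2).trans (le_max_left _ _)
  obtain ⟨C, hC0, hC⟩ := det_bd' (X := X) (n := n) hB0
  obtain ⟨V, hV⟩ : ∃ V, V = U ∩ resolventSet ℂ (T c) := ⟨_, rfl⟩
  have hVo : IsOpen V := by
    rw [hV]
    exact hU.inter (spectrum.isOpen_resolventSet (T c))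
  have hVU : V ⊆ U := by rw [hV]; exact inter_subset_left
  have hVR : V ⊆ resolventSet ℂ (T c) := by rw [hV]; exact inter_subset_right
  obtain ⟨D, hD⟩ : ∃ D : ℂ → ℂ → ℂ,
    D = fun κ z => (1 - (1:ℂ) • Mx (F κ) (J κ) (resolvent (T c) z)).det := ⟨_, rfl⟩
  have hDc : ∀ z, D c z = 1 := by
    intro z
    rw [hD]
    show (1 - (1:ℂ) • Mx (F c) (J c) (resolvent (T c) z)).det = 1
    rw [one_smul]
    exact det_nil _ (Mx_sq _ _ _ h00)
  have hDd : ∀ z, DifferentiableOn ℂ (fun κ => D κ z) O := by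
    intro z
    rw [hD]
    refine det_diff _ fun i j => ?_
    simp only [Matrix.sub_apply, Matrix.smul_apply, smul_eq_mul, one_mul]
    refine (differentiableOn_const _).sub ?_
    have h1 : DifferentiableOn ℂ (fun κ => J κ (Pi.single j 1)) O :=
      hJ.clm_apply (differentiableOn_const _)
    have h2 : DifferentiableOn ℂ (fun κ => resolvent (T c) z (J κ (Pi.single j 1))) O :=
      (resolvent (T c) z).differentiable.comp_differentiableOn h1
    have h3 : DifferentiableOn ℂ (fun κ => F κ (resolvent (T c) z (J κ (Pi.single j 1)))) O :=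
      hF.clm_apply h2
    exact differentiableOn_pi.1 h3 i
  have hDb : ∀ κ z, ‖κ - c‖ ≤ 6 * r →
      ‖D κ z‖ ≤ Real.exp (C + n * Real.posLog ‖resolvent (T c) z‖) := by
    intro κ z hκ
    rw [hD]
    exact hC _ _ _ (hB κ (by rw [mem_closedBall, dist_eq_norm]; exact hκ))
  -- joint continuity
  have hres : ContinuousOn (fun z => resolvent (T c) z) (resolventSet ℂ (T c)) := fun z hz =>
    (spectrum.hasDerivAt_resolvent_const_left hz).continuousAt.continuousWithinAt
  have hbO : ball c r ⊆ O := by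
    refine (ball_subset_closedBall.trans (closedBall_subset_closedBall ?_)).trans hOb
    linarith
  have hDcont : ContinuousOn (fun p : ℂ × ℂ => D p.1 p.2) (O ×ˢ V) := by
    rw [hD]
    refine det_cont _ fun i j => ?_
    simp only [Matrix.sub_apply, Matrix.smul_apply, smul_eq_mul, one_mul]
    refine continuousOn_const.sub ?_
    have hJ' : ContinuousOn (fun p : ℂ × ℂ => J p.1) (O ×ˢ V) :=
      hJ.continuousOn.comp continuousOn_fst fun p hp => hp.1
    have hF' : ContinuousOn (fun p : ℂ × ℂ => F p.1) (O ×ˢ V) :=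
      hF.continuousOn.comp continuousOn_fst fun p hp => hp.1
    have hR' : ContinuousOn (fun p : ℂ × ℂ => resolvent (T c) p.2) (O ×ˢ V) :=
      hres.comp continuousOn_snd fun p hp => hVR hp.2
    have h3 : ContinuousOn (fun p : ℂ × ℂ => F p.1 (resolvent (T c) p.2 (J p.1 (Pi.single j 1))))
        (O ×ˢ V) :=
      hF'.clm_apply (hR'.clm_apply (hJ'.clm_apply continuousOn_const))
    exact continuousOn_pi.1 h3 i
  have hM : ∫⁻ z in V, ENNReal.ofReal (C + n * Real.posLog ‖resolvent (T c) z‖ + 1) ≠ ⊤ := by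
    refine ne_top_of_le_ne_top ?_ (lintegral_mono' (Measure.restrict_mono_set _ hVU)
      (g := fun z => ENNReal.ofReal (C + 1) +
        n * ENNReal.ofReal (Real.posLog ‖resolvent (T c) z‖)) fun z => ?_)
    · rw [lintegral_add_left measurable_const, lintegral_const, Measure.restrict_apply_univ,
        lintegral_const_mul' _ _ (ENNReal.natCast_ne_top n)]
      refine ENNReal.add_ne_top.2 ⟨ENNReal.mul_ne_top ENNReal.ofReal_ne_top hUf,
        ENNReal.mul_ne_top (ENNReal.natCast_ne_top n) ?_⟩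
      refine ne_top_of_le_ne_top hg.2.2.ne (lintegral_mono fun z => ?_)
      rw [Real.enorm_of_nonneg Real.posLog_nonneg]
    · have e : C + n * Real.posLog ‖resolvent (T c) z‖ + 1 =
          (C + 1) + n * Real.posLog ‖resolvent (T c) z‖ := by ring
      show ENNReal.ofReal (C + n * Real.posLog ‖resolvent (T c) z‖ + 1) ≤ _
      rw [e]
      refine ENNReal.ofReal_add_le.trans ?_
      rw [ENNReal.ofReal_mul (Nat.cast_nonneg n), ENNReal.ofReal_natCast]
  have hdim := dim_abs hr hO hVo hOb D (fun z => C + n * Real.posLog ‖resolvent (T c) z‖)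
    (fun z _ => hDd z) (fun z _ => hDc z) (fun z _ κ hκ => hDb κ z hκ) hDcont hM
  refine le_antisymm ((dimH_mono ?_).trans hdim.le) zero_le
  rintro κ ⟨hκ1, hκ2⟩
  refine ⟨hκ1, ?_⟩
  by_contra hcon
  refine hκ2 (transfer (T c) (T κ) (F κ) (J κ) (hT κ (hbO hκ1)) hU hUf hg ?_)
  rw [← hV]
  rw [hD] at hcon
  exact hcon

end Pool.Agent.H23HF
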